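import Mathlib

set_option autoImplicit false

/-!
Elimination: a polynomial in the `x i` divides a polynomial in the `β i (x i)`.
-/

namespace Pool.Agent.H10PC

open Polynomial

theorem exists_elim {K : Type} [Field K] {n : ℕ} (β : Fin n → K[X])
    (hβ : ∀ i, 0 < (β i).natDegree) {g : MvPolynomial (Fin n) K} (hg : g ≠ 0) :
    ∃ r : MvPolynomial (Fin n) K, r ≠ 0 ∧ ∀ (M : Type) [Field M] [Algebra K M] (x : Fin n → M),
      MvPolynomial.aeval x g = 0 → MvPolynomial.aeval (fun i => aeval (x i) (β i)) r = 0 := by
  classical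
  let φ : MvPolynomial (Fin n) K →ₐ[K] MvPolynomial (Fin n) K :=
    MvPolynomial.aeval fun i => aeval (MvPolynomial.X i : MvPolynomial (Fin n) K) (β i)
  have hint : ∀ p : MvPolynomial (Fin n) K,
      (φ : MvPolynomial (Fin n) K →+* MvPolynomial (Fin n) K).IsIntegralElem p := by
    intro p
    induction p using MvPolynomial.induction_on with
    | C a =>
      have h1 : (φ : MvPolynomial (Fin n) K →+* MvPolynomial (Fin n) K) (MvPolynomial.C a) =
          MvPolynomial.C a := by
        change φ (algebraMap K _ a) = _
        rw [AlgHom.commutes]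
        rfl
      rw [← h1]
      exact RingHom.isIntegralElem_map _
    | add p q hp hq => exact hp.add _ hq
    | mul_X p i hp =>
      refine hp.mul _ ?_
      have hlc : (β i).leadingCoeff ≠ 0 := leadingCoeff_ne_zero.2 fun h => by
        have := hβ i
        rw [h] at this
        simp at this
      refine ⟨C (MvPolynomial.C (β i).leadingCoeff⁻¹) *
        ((β i).map (algebraMap K (MvPolynomial (Fin n) K)) - C (MvPolynomial.X i)), ?_, ?_⟩
      · have h1 : ((β i).map (algebraMap K (MvPolynomial (Fin n) K)) -
            C (MvPolynomial.X i)).leadingCoeff =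
            algebraMap K (MvPolynomial (Fin n) K) (β i).leadingCoeff := by
          rw [leadingCoeff_sub_of_degree_lt, leadingCoeff_map]
          refine degree_C_le.trans_lt ?_
          rw [degree_map, ← natDegree_pos_iff_degree_pos]
          exact hβ i
        rw [Monic, leadingCoeff_mul, leadingCoeff_C, h1]
        change MvPolynomial.C _ * MvPolynomial.C _ = 1
        rw [← map_mul, inv_mul_cancel₀ hlc, map_one]
      · rw [eval₂_mul, eval₂_sub, eval₂_C, eval₂_C, eval₂_map]
        have h2 : (φ : MvPolynomial (Fin n) K →+* MvPolynomial (Fin n) K).comp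
            (algebraMap K (MvPolynomial (Fin n) K)) = algebraMap K _ := φ.comp_algebraMap
        have h3 : (φ : MvPolynomial (Fin n) K →+* MvPolynomial (Fin n) K) (MvPolynomial.X i) =
            aeval (MvPolynomial.X i : MvPolynomial (Fin n) K) (β i) := by
          change φ _ = _
          simp only [φ, MvPolynomial.aeval_X]
        rw [h2, h3, ← aeval_def, sub_self, mul_zero]
  obtain ⟨p, hpm, hp⟩ := hint g
  obtain ⟨i, hi0, hi⟩ := Ideal.exists_coeff_ne_zero_mem_comap_of_root_mem (I := Ideal.span {g})
    hg (Ideal.mem_span_singleton_self g) hpm.ne_zero hp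
  refine ⟨p.coeff i, hi0, fun M _ _ x hx => ?_⟩
  obtain ⟨q, hq⟩ := Ideal.mem_span_singleton.1 (Ideal.mem_comap.1 hi)
  have h1 : MvPolynomial.aeval x (φ (p.coeff i)) = 0 := by
    have h2 : φ (p.coeff i) = g * q := hq
    rw [h2, map_mul, hx, zero_mul]
  have h2 : MvPolynomial.aeval x (φ (p.coeff i)) =
      MvPolynomial.aeval (fun i => aeval (x i) (β i)) (p.coeff i) := by
    have h3 : (MvPolynomial.aeval x : MvPolynomial (Fin n) K →ₐ[K] M).comp φ =
        MvPolynomial.aeval (fun i => aeval (x i) (β i)) := by
      apply MvPolynomial.algHom_ext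
      intro j
      rw [AlgHom.comp_apply]
      simp only [φ, MvPolynomial.aeval_X]
      rw [← aeval_algHom_apply, MvPolynomial.aeval_X]
    rw [← h3]
    rfl
  rw [← h2]
  exact h1

end Pool.Agent.H10PC
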