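import Mathlib
import Pool.Agent.H10UD.Asm

set_option autoImplicit false

/-!
Heights of the values of polynomials, uniformly in the field.
-/

namespace Pool.Agent.H10PC

open NumberField IsDedekindDomain Module Height Pool.Agent.W231.V Pool.Agent.Y733.VR Polynomial
  Pool.Agent.H10UD

theorem hh_poly {K : Type} [Field K] [NumberField K] (β : K[X]) : ∃ C : ℝ, 0 ≤ C ∧
    ∀ (M : Type) [Field M] [NumberField M] [Algebra K M] (x : M),
      hh (aeval x β) ≤ β.natDegree * hh x + C := by
  classical
  set b := β.natDegree with hb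
  obtain ⟨c, hc0, hc⟩ := H10UD.exists_den (K := K) (β.support.image β.coeff)
  have hc' : ∀ i, ∃ r : 𝓞 K, (r : K) = (c : K) * β.coeff i := by
    intro i
    by_cases hi : i ∈ β.support
    · exact hc _ (Finset.mem_image_of_mem _ hi)
    · rw [notMem_support_iff.1 hi]
      exact ⟨0, by simp⟩
  have hcK : (c : K) ≠ 0 := by rwa [Ne, RingOfIntegers.coe_eq_zero_iff]
  set A : ℝ := ∑ i ∈ Finset.range (b + 1), ∑ v : InfinitePlace K, v ((c : K) * β.coeff i) with hA
  set A' : ℝ := ∑ v : InfinitePlace K, v (c : K) with hA'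
  have hA0 : 0 ≤ A := Finset.sum_nonneg fun i _ => Finset.sum_nonneg fun v _ => apply_nonneg _ _
  have hA'0 : 0 ≤ A' := Finset.sum_nonneg fun v _ => apply_nonneg _ _
  refine ⟨Real.log (A + A' + 1), Real.log_nonneg (by linarith), fun M _ _ _ x => ?_⟩
  have hcM : algebraMap K M (c : K) ≠ 0 := by rwa [Ne, FaithfulSMul.algebraMap_eq_zero_iff]
  have hev : algebraMap K M (c : K) * aeval x β =
      ∑ i ∈ Finset.range (b + 1), algebraMap K M ((c : K) * β.coeff i) * x ^ i := by
    rw [aeval_eq_sum_range, Finset.mul_sum]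
    refine Finset.sum_congr rfl fun i _ => ?_
    rw [Algebra.smul_def, map_mul, mul_assoc]
  set X1 : Fin 2 → M := ![algebraMap K M (c : K) * aeval x β, algebraMap K M (c : K)] with hX1
  set Y1 : Fin 2 → M := ![x ^ b, 1] with hY1
  have hX0 : X1 ≠ 0 := fun h => hcM (congrFun h 1)
  have hY0 : Y1 ≠ 0 := fun h => one_ne_zero (congrFun h 1)
  have hsup : ∀ f : AbsoluteValue M ℝ, f x ^ b ≤ (⨆ j, f (Y1 j)) ∧ 1 ≤ ⨆ j, f (Y1 j) := by
    intro f
    constructor
    · have := le_ciSup (f := fun j => f (Y1 j)) (Set.finite_range _).bddAbove 0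
      simpa [hY1] using this
    · have := le_ciSup (f := fun j => f (Y1 j)) (Set.finite_range _).bddAbove 1
      simpa [hY1] using this
  have hmon : ∀ f : AbsoluteValue M ℝ, ∀ i ∈ Finset.range (b + 1), f (x ^ i) ≤ ⨆ j, f (Y1 j) := by
    intro f i hi
    rw [map_pow]
    obtain ⟨h1, h2⟩ := hsup f
    rcases le_total (f x) 1 with h | h
    · exact (pow_le_one₀ (apply_nonneg _ _) h).trans h2
    · exact (pow_le_pow_right₀ h (Nat.lt_succ_iff.1 (Finset.mem_range.1 hi))).trans h1
  have key := height_cmp hX0 hY0 (C := A + A' + 1) (by linarith) ?_ ?_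
  · have e1 : logHeight X1 = logHeight₁ (aeval x β) := by
      rw [hX1, ← logHeight₁_div_eq_logHeight, mul_div_cancel_left₀ _ hcM]
    have e2 : logHeight Y1 = logHeight₁ (x ^ b) := by
      rw [hY1, logHeight₁_eq_logHeight]
    rw [e1, e2, hh_mul_deg, hh_mul_deg, hh_pow] at key
    have hd : (0 : ℝ) < finrank ℚ M := deg_pos
    have e3 : (↑b * hh x + Real.log (A + A' + 1)) * (finrank ℚ M : ℝ) =
        ↑b * hh x * finrank ℚ M + finrank ℚ M * Real.log (A + A' + 1) := by ring
    rw [← e3] at key
    exact le_of_mul_le_mul_right key hd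
  · intro w j
    obtain ⟨h1, h2⟩ := hsup w.1
    have h3 : (1 : ℝ) ≤ ⨆ j, w (Y1 j) := h2
    fin_cases j
    · change w (algebraMap K M (c : K) * aeval x β) ≤ _
      rw [hev]
      have h4 : w (∑ i ∈ Finset.range (b + 1), algebraMap K M ((c : K) * β.coeff i) * x ^ i) ≤
          ∑ i ∈ Finset.range (b + 1), w (algebraMap K M ((c : K) * β.coeff i) * x ^ i) :=
        w.1.sum_le _ _
      refine h4.trans ?_
      calc ∑ i ∈ Finset.range (b + 1), w (algebraMap K M ((c : K) * β.coeff i) * x ^ i)
          ≤ ∑ i ∈ Finset.range (b + 1), (∑ v : InfinitePlace K, v ((c : K) * β.coeff i)) *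
            ⨆ j, w (Y1 j) := by
            refine Finset.sum_le_sum fun i hi => ?_
            rw [map_mul]
            refine mul_le_mul ?_ (hmon w.1 i hi) (apply_nonneg _ _)
              (Finset.sum_nonneg fun v _ => apply_nonneg _ _)
            exact Finset.single_le_sum (f := fun v : InfinitePlace K => v ((c : K) * β.coeff i))
              (fun v _ => apply_nonneg _ _) (Finset.mem_univ (w.comap (algebraMap K M)))
        _ = A * ⨆ j, w (Y1 j) := by rw [hA, Finset.sum_mul]
        _ ≤ (A + A' + 1) * ⨆ j, w (Y1 j) := by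
            refine mul_le_mul_of_nonneg_right (by linarith) (by linarith)
    · change w (algebraMap K M (c : K)) ≤ _
      have h4 : w (algebraMap K M (c : K)) ≤ A' :=
        Finset.single_le_sum (f := fun v : InfinitePlace K => v (c : K))
          (fun v _ => apply_nonneg _ _) (Finset.mem_univ (w.comap (algebraMap K M)))
      have h5 : (A + A' + 1) * 1 ≤ (A + A' + 1) * ⨆ j, w (Y1 j) :=
        mul_le_mul_of_nonneg_left h3 (by linarith)
      linarith
  · intro v j
    obtain ⟨h1, h2⟩ := hsup (fv v)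
    have hna : IsNonarchimedean (fv v : M → ℝ) := fun a b => fv_na v a b
    have hle : ∀ r : 𝓞 K, fv v (algebraMap K M (r : K)) ≤ 1 := fun r =>
      Pool.Agent.H10VJ.fv_int v (algebraMap (𝓞 K) (𝓞 M) r)
    fin_cases j
    · change fv v (algebraMap K M (c : K) * aeval x β) ≤ _
      rw [hev]
      obtain ⟨i, hi, hle'⟩ := hna.finset_image_add_of_nonempty
        (fun i => algebraMap K M ((c : K) * β.coeff i) * x ^ i)
        (⟨0, Finset.mem_range.2 (Nat.succ_pos b)⟩ : (Finset.range (b + 1)).Nonempty)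
      refine hle'.trans ?_
      rw [map_mul]
      obtain ⟨r, hr⟩ := hc' i
      have h4 : fv v (algebraMap K M ((c : K) * β.coeff i)) ≤ 1 := by
        rw [← hr]; exact hle r
      calc _ ≤ 1 * ⨆ j, fv v (Y1 j) := mul_le_mul h4 (hmon (fv v) i hi) (apply_nonneg _ _)
            zero_le_one
        _ = _ := one_mul _
    · exact (hle c).trans h2

end Pool.Agent.H10PC
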