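import Mathlib
import Pool.Agent.H10UD.Unr

set_option autoImplicit false

/-!
Extensions generated by the roots of polynomials with unit discriminants are unramified.
-/

namespace Pool.Agent.H10PC

open NumberField IsDedekindDomain Module IntermediateField Polynomial Pool.Agent.Y733.VR
  Pool.Agent.H10UD

section simple
variable {K M : Type} [Field K] [NumberField K] [Field M] [NumberField M] [Algebra K M]

/-- a common denominator prime to `w` -/
lemma exists_den (w : HeightOneSpectrum (𝓞 M)) (s : Finset K)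
    (hs : ∀ x ∈ s, w.valuation M (algebraMap K M x) ≤ 1) :
    ∃ b : 𝓞 K, algebraMap (𝓞 K) (𝓞 M) b ∉ w.asIdeal ∧ ∀ x ∈ s, ∃ a : 𝓞 K, x * (b : K) = a := by
  classical
  induction s using Finset.induction_on with
  | empty =>
    refine ⟨1, ?_, by simp⟩
    rw [map_one]
    exact fun h => w.isPrime.ne_top ((Ideal.eq_top_iff_one _).2 h)
  | insert y s _ ih =>
    obtain ⟨b, hb, hbs⟩ := ih fun x hx => hs x (Finset.mem_insert_of_mem hx)
    obtain ⟨a, ⟨d, hd⟩, had⟩ := HeightOneSpectrum.exists_primeCompl_mul_eq_of_integer _ y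
      (val_under_le w (hs y (Finset.mem_insert_self y s)))
    simp only at had
    have hdw : algebraMap (𝓞 K) (𝓞 M) d ∉ w.asIdeal := hd
    refine ⟨b * d, ?_, fun x hx => ?_⟩
    · rw [map_mul]
      intro h
      rcases w.isPrime.mem_or_mem h with h1 | h1
      · exact hb h1
      · exact hdw h1
    · rcases Finset.mem_insert.1 hx with rfl | hx
      · refine ⟨a * b, ?_⟩
        have h1 : x * (d : K) = (a : K) := had
        push_cast
        linear_combination (b : K) * h1
      · obtain ⟨c, hc⟩ := hbs x hx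
        refine ⟨c * d, ?_⟩
        push_cast
        linear_combination (d : K) * hc

lemma poly_unr (w : HeightOneSpectrum (𝓞 M)) {z : M} (f : K[X]) (hf : f.Monic)
    (hz : aeval z f = 0) (htop : K⟮z⟯ = ⊤)
    (hc : ∀ i, w.valuation M (algebraMap K M (f.coeff i)) ≤ 1)
    (hd : w.valuation M (aeval z (derivative f)) = 1) :
    ¬ w.asIdeal ∣ differentIdeal (𝓞 K) (𝓞 M) := by
  classical
  obtain ⟨b, hbw, hb⟩ := exists_den w (f.support.image f.coeff) (by
    intro x hx
    obtain ⟨i, -, rfl⟩ := Finset.mem_image.1 hx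
    exact hc i)
  have hb' : ∀ i, ∃ a : 𝓞 K, f.coeff i * (b : K) = a := by
    intro i
    by_cases hi : i ∈ f.support
    · exact hb _ (Finset.mem_image_of_mem _ hi)
    · rw [notMem_support_iff.1 hi]
      exact ⟨0, by simp⟩
  have hb0 : (b : K) ≠ 0 := by
    intro h
    rw [RingOfIntegers.coe_eq_zero_iff] at h
    apply hbw
    rw [h, map_zero]
    exact zero_mem _
  have hbM : algebraMap K M (b : K) ≠ 0 := by
    rwa [Ne, FaithfulSMul.algebraMap_eq_zero_iff]
  set n := f.natDegree with hn
  set G : K[X] := C ((b : K) ^ n) * f.comp (C (b : K)⁻¹ * X) with hG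
  have hGc : ∀ i, G.coeff i = (b : K) ^ n * (f.coeff i * (b : K)⁻¹ ^ i) := by
    intro i
    rw [hG, coeff_C_mul, comp_C_mul_X_coeff]
  obtain ⟨g, hg⟩ : ∃ g : (𝓞 K)[X], g.map (algebraMap (𝓞 K) K) = G := by
    rw [← mem_lifts, lifts_iff_coeff_lifts]
    intro i
    rw [hGc]
    rcases lt_trichotomy i n with h | h | h
    · obtain ⟨a, ha⟩ := hb' i
      refine ⟨a * b ^ (n - 1 - i), ?_⟩
      rw [map_mul, map_pow]
      change (a : K) * (b : K) ^ (n - 1 - i) = _
      rw [← ha]
      have h1 : (b : K) ^ n = (b : K) ^ i * (b : K) * (b : K) ^ (n - 1 - i) := by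
        rw [← pow_succ, ← pow_add]
        congr 1
        omega
      rw [h1, inv_pow]
      field_simp
    · refine ⟨1, ?_⟩
      rw [h, hn, hf.coeff_natDegree, ← hn, one_mul, inv_pow, mul_inv_cancel₀ (pow_ne_zero _ hb0),
        map_one]
    · refine ⟨0, ?_⟩
      rw [coeff_eq_zero_of_natDegree_lt h, zero_mul, mul_zero, map_zero]
  have hGz : aeval (algebraMap K M (b : K) * z) G = 0 := by
    rw [hG, map_mul, aeval_comp, map_mul, aeval_C, aeval_X, aeval_C, ← mul_assoc, ← map_mul,
      inv_mul_cancel₀ hb0, map_one, one_mul, hz, mul_zero]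
  have hGd : aeval (algebraMap K M (b : K) * z) (derivative G) =
      algebraMap K M ((b : K) ^ n * (b : K)⁻¹) * aeval z (derivative f) := by
    rw [hG, derivative_C_mul, derivative_comp, derivative_C_mul, derivative_X, mul_one, map_mul,
      map_mul, aeval_comp, map_mul, aeval_C, aeval_X, aeval_C, ← mul_assoc (algebraMap K M _)
      (algebraMap K M _) z, ← map_mul, inv_mul_cancel₀ hb0, map_one, one_mul, ← mul_assoc,
      ← map_mul]
  have hgm : g.Monic := by
    have h1 : G.Monic := by
      have h2 : G.natDegree ≤ n := by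
        rw [natDegree_le_iff_coeff_eq_zero]
        intro i hi
        rw [hGc, coeff_eq_zero_of_natDegree_lt hi, zero_mul, mul_zero]
      refine monic_of_natDegree_le_of_coeff_eq_one n h2 ?_
      rw [hGc, hn, hf.coeff_natDegree, ← hn, one_mul, inv_pow, mul_inv_cancel₀ (pow_ne_zero _ hb0)]
    rw [← hg] at h1
    exact monic_of_injective (RingOfIntegers.coe_injective) h1
  have hint : IsIntegral (𝓞 K) (algebraMap K M (b : K) * z) := by
    refine ⟨g, hgm, ?_⟩
    rw [← aeval_def, ← aeval_map_algebraMap K, hg, hGz]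
  have hintZ : IsIntegral ℤ (algebraMap K M (b : K) * z) := isIntegral_trans _ hint
  obtain ⟨β, hβ⟩ : ∃ β : 𝓞 M, (β : M) = algebraMap K M (b : K) * z := ⟨⟨_, hintZ⟩, rfl⟩
  have htop' : K⟮(β : M)⟯ = ⊤ := by
    rw [hβ, eq_top_iff, ← htop, adjoin_simple_le_iff]
    have h1 : algebraMap K M (b : K) * z ∈ K⟮algebraMap K M (b : K) * z⟯ :=
      mem_adjoin_simple_self K _
    have h2 : algebraMap K M (b : K) ∈ K⟮algebraMap K M (b : K) * z⟯ :=
      IntermediateField.algebraMap_mem _ _
    have h3 := div_mem h1 h2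
    rwa [mul_div_cancel_left₀ _ hbM] at h3
  have hcoe : ∀ P : (𝓞 K)[X], ((aeval β P : 𝓞 M) : M) =
      aeval (algebraMap K M (b : K) * z) (P.map (algebraMap (𝓞 K) K)) := by
    intro P
    rw [aeval_map_algebraMap, ← hβ]
    exact (aeval_algebraMap_apply M β P).symm
  have hroot : aeval β g = 0 := by
    apply RingOfIntegers.coe_injective
    rw [map_zero]
    exact (hcoe g).trans (by rw [hg, hGz])
  have hmem := deriv_mem K M β htop' g hroot
  intro hdvd
  have h5 : aeval β (derivative g) ∈ w.asIdeal := (Ideal.dvd_iff_le.1 hdvd) hmem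
  have h6 : w.valuation M (algebraMap (𝓞 M) M (aeval β (derivative g))) < 1 :=
    (w.valuation_lt_one_iff_mem (aeval β (derivative g))).2 h5
  have h7 : algebraMap (𝓞 M) M (aeval β (derivative g)) =
      algebraMap K M ((b : K) ^ n * (b : K)⁻¹) * aeval z (derivative f) := by
    rw [← hGd, ← hg, derivative_map]
    exact hcoe _
  have h8 : w.valuation M (algebraMap K M (b : K)) = 1 := by
    have : algebraMap K M (b : K) = algebraMap (𝓞 M) M (algebraMap (𝓞 K) (𝓞 M) b) := rfl
    rw [this, HeightOneSpectrum.valuation_eq_one_iff_notMem]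
    exact hbw
  rw [h7, map_mul, hd, mul_one, map_mul, map_mul, map_pow, map_inv₀, map_pow, map_inv₀, h8] at h6
  simp at h6

end simple

/-- towers -/
lemma tower_unr (K L M : Type) [Field K] [NumberField K] [Field L] [NumberField L] [Field M]
    [NumberField M] [Algebra K L] [Algebra L M] [Algebra K M] [IsScalarTower K L M]
    (w : HeightOneSpectrum (𝓞 M)) (h0 : ¬ w.asIdeal ∣ differentIdeal (𝓞 L) (𝓞 M))
    (h1 : ¬ (w.under (𝓞 L)).asIdeal ∣ differentIdeal (𝓞 K) (𝓞 L)) :
    ¬ w.asIdeal ∣ differentIdeal (𝓞 K) (𝓞 M) := by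
  rw [differentIdeal_eq_differentIdeal_mul_differentIdeal (𝓞 K) (𝓞 L) (𝓞 M)]
  intro hdvd
  rcases (w.prime.dvd_or_dvd hdvd) with h3 | h3
  · exact h0 h3
  · apply h1
    rw [Ideal.dvd_iff_le, Ideal.map_le_iff_le_comap] at h3
    rw [Ideal.dvd_iff_le]
    exact h3

lemma adjoin_tail' {K M : Type} [Field K] [Field M] [Algebra K M] {n : ℕ} {z : ℕ → M}
    (h : IntermediateField.adjoin K (z '' Set.Iio (n + 1)) = ⊤) :
    IntermediateField.adjoin K⟮z 0⟯ ((fun j => z (j + 1)) '' Set.Iio n) = ⊤ := by
  have h1 := IntermediateField.adjoin_adjoin_left K {z 0} ((fun j => z (j + 1)) '' Set.Iio n)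
  have h2 : ({z 0} ∪ (fun j => z (j + 1)) '' Set.Iio n) = z '' Set.Iio (n + 1) := by
    ext x
    constructor
    · rintro (h | ⟨j, hj, rfl⟩)
      · exact ⟨0, by simp, by simpa [eq_comm] using h⟩
      · exact ⟨j + 1, by simpa using hj, rfl⟩
    · rintro ⟨j, hj, rfl⟩
      rcases j with _ | j
      · exact Or.inl rfl
      · exact Or.inr ⟨j, by simpa using hj, rfl⟩
  rw [h2, h] at h1
  rw [eq_top_iff]
  intro x _
  have : x ∈ (IntermediateField.adjoin (IntermediateField.adjoin K {z 0})
      ((fun j => z (j + 1)) '' Set.Iio n)).restrictScalars K := by rw [h1]; trivial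
  exact this

/-- several generators -/
theorem gens_unr (n : ℕ) : ∀ (K M : Type) [Field K] [NumberField K] [Field M] [NumberField M]
    [Algebra K M] (f : ℕ → K[X]) (z : ℕ → M), (∀ i < n, (f i).Monic ∧ aeval (z i) (f i) = 0) →
    IntermediateField.adjoin K (z '' Set.Iio n) = ⊤ →
    ∀ w : HeightOneSpectrum (𝓞 M), (∀ i < n, (∀ j, w.valuation M
      (algebraMap K M ((f i).coeff j)) ≤ 1) ∧ w.valuation M (aeval (z i) (derivative (f i))) = 1) →
      ¬ w.asIdeal ∣ differentIdeal (𝓞 K) (𝓞 M) := by
  induction n with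
  | zero =>
    intro K M _ _ _ _ _ f z _ htop w _
    refine poly_unr w (z := 0) (X : K[X]) monic_X (by simp) ?_ ?_ (by simp)
    · rw [← htop]
      simp
    · intro i
      rw [coeff_X]
      split_ifs <;> simp
  | succ n ih =>
    intro K M _ _ _ _ _ f z hf htop w hw
    have hNF : NumberField K⟮z 0⟯ := numberField_of _
    have hmem : z 0 ∈ K⟮z 0⟯ := mem_adjoin_simple_self K _
    obtain ⟨g, hg⟩ : ∃ g : K⟮z 0⟯, (g : M) = z 0 := ⟨⟨_, hmem⟩, rfl⟩
    have hga : algebraMap K⟮z 0⟯ M g = z 0 := hg
    have hev : ∀ P : K[X], algebraMap K⟮z 0⟯ M (aeval g P) = aeval (z 0) P := by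
      intro P
      rw [← aeval_algebraMap_apply, hga]
    refine tower_unr K K⟮z 0⟯ M w ?_ ?_
    · refine ih K⟮z 0⟯ M (fun i => (f (i + 1)).map (algebraMap K K⟮z 0⟯)) (fun i => z (i + 1))
        (fun i hi => ⟨(hf (i + 1) (by omega)).1.map _, ?_⟩) (adjoin_tail' htop) w
        (fun i hi => ⟨fun j => ?_, ?_⟩)
      · rw [aeval_map_algebraMap]
        exact (hf (i + 1) (by omega)).2
      · rw [coeff_map, ← IsScalarTower.algebraMap_apply]
        exact (hw (i + 1) (by omega)).1 j
      · rw [derivative_map, aeval_map_algebraMap]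
        exact (hw (i + 1) (by omega)).2
    · obtain ⟨e, he, hv⟩ := val_under (K := K⟮z 0⟯) w
      refine poly_unr (w.under (𝓞 K⟮z 0⟯)) (z := g) (f 0) (hf 0 (by omega)).1 ?_ ?_ ?_ ?_
      · apply (algebraMap K⟮z 0⟯ M).injective
        rw [hev, (hf 0 (by omega)).2, map_zero]
      · have := adjoin_gen_top (K := K) (z 0)
        convert this
      · intro i
        apply val_under_le w
        rw [← IsScalarTower.algebraMap_apply]
        exact (hw 0 (by omega)).1 i
      · have h3 := hv (aeval g (derivative (f 0)))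
        rw [hev, (hw 0 (by omega)).2] at h3
        exact wz_one he h3

/-- the degree -/
theorem gens_deg (n : ℕ) : ∀ (K M : Type) [Field K] [NumberField K] [Field M] [NumberField M]
    [Algebra K M] (f : ℕ → K[X]) (z : ℕ → M), (∀ i < n, (f i).Monic ∧ aeval (z i) (f i) = 0) →
    IntermediateField.adjoin K (z '' Set.Iio n) = ⊤ →
    finrank K M ≤ ∏ i ∈ Finset.range n, (f i).natDegree := by
  induction n with
  | zero =>
    intro K M _ _ _ _ _ f z _ htop
    simp only [Finset.range_zero, Finset.prod_empty]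
    have h1 : (⊥ : IntermediateField K M) = ⊤ := by
      rw [← htop]
      simp
    rw [← IntermediateField.finrank_top', ← h1, IntermediateField.finrank_bot]
  | succ n ih =>
    intro K M _ _ _ _ _ f z hf htop
    have hNF : NumberField K⟮z 0⟯ := numberField_of _
    have h0 := ih K⟮z 0⟯ M (fun i => (f (i + 1)).map (algebraMap K K⟮z 0⟯)) (fun i => z (i + 1))
        (fun i hi => ⟨(hf (i + 1) (by omega)).1.map _, by
          rw [aeval_map_algebraMap]
          exact (hf (i + 1) (by omega)).2⟩) (adjoin_tail' htop)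
    have h1 : finrank K K⟮z 0⟯ ≤ (f 0).natDegree := by
      rw [IntermediateField.adjoin.finrank (Algebra.IsIntegral.isIntegral (z 0))]
      exact natDegree_le_of_dvd (minpoly.dvd K (z 0) (hf 0 (by omega)).2)
        (hf 0 (by omega)).1.ne_zero
    rw [← finrank_mul_finrank K K⟮z 0⟯ M, Finset.prod_range_succ', mul_comm]
    refine Nat.mul_le_mul ?_ h1
    refine h0.trans (le_of_eq ?_)
    refine Finset.prod_congr rfl fun i _ => ?_
    simp only [natDegree_map]

/-- the existence of the field -/
theorem exists_gens (K : Type) [Field K] [NumberField K] (n : ℕ) (f : ℕ → K[X])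
    (hf : ∀ i < n, 0 < (f i).natDegree) :
    ∃ (M : Type) (_ : Field M) (_ : NumberField M) (_ : Algebra K M) (z : ℕ → M),
      (∀ i < n, aeval (z i) (f i) = 0) ∧ IntermediateField.adjoin K (z '' Set.Iio n) = ⊤ := by
  classical
  have hroot : ∀ i, ∃ x : AlgebraicClosure K, i < n → aeval x (f i) = 0 := by
    intro i
    by_cases hi : i < n
    · obtain ⟨x, hx⟩ := IsAlgClosed.exists_aeval_eq_zero (AlgebraicClosure K) (f i) (by
        intro h
        have h1 := natDegree_eq_zero_iff_degree_le_zero.2 h.le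
        have := hf i hi
        omega)
      exact ⟨x, fun _ => hx⟩
    · exact ⟨0, fun h => absurd h hi⟩
  choose v hv using hroot
  let E : IntermediateField K (AlgebraicClosure K) := IntermediateField.adjoin K (v '' Set.Iio n)
  have hfd : FiniteDimensional K E := by
    have : Finite (v '' Set.Iio n) := (Set.finite_Iio n).image v
    refine IntermediateField.finiteDimensional_adjoin fun x _ => ?_
    exact Algebra.IsIntegral.isIntegral x
  have hNF : NumberField E := NumberField.of_module_finite K E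
  have hmem : ∀ j < n, v j ∈ E := fun j hj => IntermediateField.subset_adjoin K _ ⟨j, hj, rfl⟩
  refine ⟨E, inferInstance, hNF, inferInstance, fun j => if h : j < n then ⟨v j, hmem j h⟩ else 0,
    fun i hi => ?_, ?_⟩
  · simp only [hi, dif_pos]
    apply (algebraMap E (AlgebraicClosure K)).injective
    rw [← aeval_algebraMap_apply, map_zero]
    exact hv i hi
  · apply IntermediateField.lift_injective
    rw [IntermediateField.lift_adjoin, IntermediateField.lift_top]
    congr 1
    ext x
    constructor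
    · rintro ⟨_, ⟨j, hj, rfl⟩, rfl⟩
      refine ⟨j, hj, ?_⟩
      have h1 : j < n := hj
      simp only [h1, dif_pos]
    · rintro ⟨j, hj, rfl⟩
      refine ⟨_, ⟨j, hj, rfl⟩, ?_⟩
      have h1 : j < n := hj
      simp only [h1, dif_pos]

end Pool.Agent.H10PC
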