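import Mathlib
import Pool.Agent.H10UD.Asm
import Pool.Agent.H10PC.Gens

set_option autoImplicit false
set_option linter.unusedSectionVars false

/-!
Local analysis: the points above a unit `t` with `1 - t` a unit.
-/

namespace Pool.Agent.H10PC

open NumberField IsDedekindDomain Module Height Pool.Agent.W231.V Pool.Agent.Y733.VR Polynomial
  Pool.Agent.H10UD

/-- the value of a polynomial in two variables -/
lemma aevalAeval_eq {K M : Type} [Field K] [Field M] [Algebra K M] (x y : M) (F : K[X][X]) :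
    aevalAeval x y F = (F.map ((aeval x : K[X] →ₐ[K] M) : K[X] →+* M)).eval y := by
  induction F using Polynomial.induction_on' with
  | add p q hp hq => rw [map_add, hp, hq, Polynomial.map_add, eval_add]
  | monomial n a =>
    rw [← C_mul_X_pow_eq_monomial, map_mul, map_pow, aevalAeval_C, aevalAeval_Y]
    simp

section loc
variable {K M : Type} [Field K] [NumberField K] [Field M] [NumberField M] [Algebra K M]
variable (w : HeightOneSpectrum (𝓞 M))

lemma na_sum {ι : Type*} (s : Finset ι) (f : ι → M) (h : ∀ i ∈ s, fv w (f i) ≤ 1) :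
    fv w (∑ i ∈ s, f i) ≤ 1 := by
  classical
  have hna : IsNonarchimedean (fv w : M → ℝ) := fun a b => fv_na w a b
  rcases s.eq_empty_or_nonempty with rfl | hs
  · simp
  · obtain ⟨i, hi, hle⟩ := hna.finset_image_add_of_nonempty f hs
    exact hle.trans (h i hi)

/-- roots of monic integral polynomials are integral -/
lemma root_int {P : M[X]} (hP : P.Monic) (hc : ∀ i, fv w (P.coeff i) ≤ 1) {x : M}
    (hx : P.eval x = 0) : fv w x ≤ 1 := by
  by_contra hlt
  push Not at hlt
  set n := P.natDegree with hn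
  rw [eval_eq_sum_range, Finset.sum_range_succ, ← hn, hn, hP.coeff_natDegree, ← hn, one_mul] at hx
  have h1 : x ^ n = -∑ i ∈ Finset.range n, P.coeff i * x ^ i := by linear_combination hx
  have hn0 : n ≠ 0 := by
    intro h0
    rw [h0] at h1
    simp at h1
  have hxn : x ^ (n - 1) ≠ 0 := pow_ne_zero _ (fun h => by
    rw [h, map_zero] at hlt
    linarith)
  have h2 : fv w (∑ i ∈ Finset.range n, P.coeff i * x ^ i / x ^ (n - 1)) ≤ 1 := by
    refine na_sum w _ _ fun i hi => ?_
    have hi' := Finset.mem_range.1 hi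
    rw [map_div₀, map_mul, map_pow, map_pow, div_le_one (pow_pos (by linarith) _)]
    have h3 : fv w x ^ i ≤ fv w x ^ (n - 1) := pow_le_pow_right₀ hlt.le (by omega)
    have h4 : 0 ≤ fv w x ^ i := pow_nonneg (apply_nonneg _ _) _
    have h5 := mul_le_mul_of_nonneg_right (hc i) h4
    linarith
  have h3 : ∑ i ∈ Finset.range n, P.coeff i * x ^ i / x ^ (n - 1) = -x := by
    rw [← Finset.sum_div, div_eq_iff hxn]
    have h4 : x ^ n = x * x ^ (n - 1) := by
      rw [← pow_succ']
      congr 1
      omega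
    rw [h4] at h1
    linear_combination h1
  rw [h3, AbsoluteValue.map_neg] at h2
  linarith

/-- the coefficients are integral at `w` -/
def IntP (P : K[X]) : Prop := ∀ i, fv w (algebraMap K M (P.coeff i)) ≤ 1

/-- the coefficients are integral at `w` -/
def IntPP (F : K[X][X]) : Prop := ∀ i, IntP w (F.coeff i)

variable {w}

lemma IntP.eval {P : K[X]} (h : IntP w P) {x : M} (hx : fv w x ≤ 1) : fv w (aeval x P) ≤ 1 := by
  rw [aeval_eq_sum_range]
  refine na_sum w _ _ fun i _ => ?_
  rw [Algebra.smul_def, map_mul, map_pow]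
  exact mul_le_one₀ (h i) (pow_nonneg (apply_nonneg _ _) _) (pow_le_one₀ (apply_nonneg _ _) hx)

lemma IntPP.eval {F : K[X][X]} (h : IntPP w F) {x y : M} (hx : fv w x ≤ 1) (hy : fv w y ≤ 1) :
    fv w (aevalAeval x y F) ≤ 1 := by
  rw [aevalAeval_eq, eval_eq_sum_range]
  refine na_sum w _ _ fun i _ => ?_
  rw [coeff_map, map_mul, map_pow]
  exact mul_le_one₀ ((h i).eval hx) (pow_nonneg (apply_nonneg _ _) _)
    (pow_le_one₀ (apply_nonneg _ _) hy)

lemma fv_natCast_le (n : ℕ) : fv w (n : M) ≤ 1 := fv_nat w n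

lemma IntP.derivative {P : K[X]} (h : IntP w P) : IntP w (derivative P) := by
  intro i
  rw [coeff_derivative, map_mul, map_mul]
  refine mul_le_one₀ (h _) (apply_nonneg _ _) ?_
  have : algebraMap K M ((i : K) + 1) = ((i + 1 : ℕ) : M) := by
    rw [map_add, map_natCast, map_one]; push_cast; rfl
  rw [this]
  exact fv_nat w _

lemma IntPP.derivative {F : K[X][X]} (h : IntPP w F) : IntPP w (derivative F) := by
  intro i j
  rw [coeff_derivative]
  have : F.coeff (i + 1) * ((i : K[X]) + 1) = C ((i + 1 : ℕ) : K) * F.coeff (i + 1) := by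
    rw [mul_comm]; congr 1; push_cast; simp
  rw [this, coeff_C_mul, map_mul, map_mul, map_natCast]
  exact mul_le_one₀ (fv_nat w _) (apply_nonneg _ _) (h _ _)

lemma one_of_mul {a b : ℝ} (ha0 : 0 ≤ a) (hb0 : 0 ≤ b) (ha : a ≤ 1) (hb : b ≤ 1)
    (h : a * b = 1) : a = 1 ∧ b = 1 := by
  constructor
  · nlinarith
  · nlinarith

/-- **The points above a good value.** -/
theorem good_point {β R Q : K[X]} {F U V : K[X][X]} {N : ℕ} (hβ : IntP w β) (hR : IntP w R)
    (hQ : IntP w Q) (hF : IntPP w F) (hV : IntPP w V)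
    (hlc : fv w (algebraMap K M β.leadingCoeff) = 1) (hFm : F.Monic)
    (hdvd : (β * (β - 1)) ^ N = R * derivative β * Q)
    (hbez : U * F + V * derivative F = C ((β * (β - 1)) ^ N))
    {x y t : M} (hx : aeval x β = t) (hy : aevalAeval x y F = 0) (ht : fv w t = 1)
    (ht1 : fv w (t - 1) = 1) :
    fv w x ≤ 1 ∧ fv w y ≤ 1 ∧ fv w (aeval x R) = 1 ∧ fv w (aeval x (derivative β)) = 1 ∧
      fv w (aevalAeval x y (derivative F)) = 1 ∧ ∀ j, fv w (aeval x (F.coeff j)) ≤ 1 := by
  have hlc0 : β.leadingCoeff ≠ 0 := by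
    intro h
    rw [h, map_zero, map_zero] at hlc
    exact zero_ne_one hlc
  have hlcM : algebraMap K M β.leadingCoeff ≠ 0 := by
    rwa [Ne, FaithfulSMul.algebraMap_eq_zero_iff]
  -- `x` is integral
  have hxi : fv w x ≤ 1 := by
    by_cases hd : β.natDegree = 0
    · -- the constant case
      exfalso
      have h1 : derivative β = 0 := derivative_eq_zero.2 hd
      rw [h1, mul_zero, zero_mul] at hdvd
      have h2 := congrArg (aeval x) hdvd
      rw [map_zero, map_pow, map_mul, map_sub, map_one, hx] at h2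
      have h3 := congrArg (fv w) h2
      rw [map_pow, map_mul, ht, ht1, map_zero] at h3
      simp at h3
    set P : M[X] := C (algebraMap K M β.leadingCoeff)⁻¹ * (β.map (algebraMap K M) - C t) with hP
    have hPm : P.Monic := by
      have h1 : (β.map (algebraMap K M) - C t).leadingCoeff = algebraMap K M β.leadingCoeff := by
        rw [leadingCoeff_sub_of_degree_lt, leadingCoeff_map]
        refine degree_C_le.trans_lt ?_
        rw [degree_map, ← natDegree_pos_iff_degree_pos]
        omega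
      rw [hP, Monic, leadingCoeff_mul, leadingCoeff_C, h1, inv_mul_cancel₀ hlcM]
    refine root_int w hPm ?_ (x := x) ?_
    · intro i
      rw [hP, coeff_C_mul, map_mul, map_inv₀, hlc, inv_one, one_mul, coeff_sub, coeff_map,
        coeff_C]
      rw [sub_eq_add_neg]
      refine (fv_na w _ _).trans (max_le (hβ i) ?_)
      rw [AbsoluteValue.map_neg]
      split_ifs
      · exact ht.le
      · rw [map_zero]; exact zero_le_one
    · rw [hP, eval_mul, eval_sub, eval_C, eval_C, eval_map_algebraMap, hx, sub_self, mul_zero]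
  have hcoef : ∀ j, fv w (aeval x (F.coeff j)) ≤ 1 := fun j => (hF j).eval hxi
  have hyi : fv w y ≤ 1 := by
    refine root_int w (hFm.map ((aeval x : K[X] →ₐ[K] M) : K[X] →+* M)) (fun i => ?_) (x := y) ?_
    · rw [coeff_map]
      exact hcoef i
    · rw [← aevalAeval_eq, hy]
  have hval : fv w (aeval x ((β * (β - 1)) ^ N)) = 1 := by
    rw [map_pow, map_mul, map_sub, map_one, hx, map_pow, map_mul, ht, ht1, one_mul, one_pow]
  have h1 : fv w (aeval x R) * fv w (aeval x (derivative β)) * fv w (aeval x Q) = 1 := by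
    rw [← map_mul, ← map_mul, ← map_mul, ← map_mul, ← hdvd, hval]
  have r1 := hR.eval hxi
  have r2 := hβ.derivative.eval hxi
  have r3 := hQ.eval hxi
  have p1 := apply_nonneg (fv w) (aeval x R)
  have p2 := apply_nonneg (fv w) (aeval x (derivative β))
  have p3 := apply_nonneg (fv w) (aeval x Q)
  obtain ⟨e1, -⟩ := one_of_mul (mul_nonneg p1 p2) p3 (mul_le_one₀ r1 p2 r2) r3 h1
  obtain ⟨e2, e3⟩ := one_of_mul p1 p2 r1 r2 e1
  have h2 : fv w (aevalAeval x y V) * fv w (aevalAeval x y (derivative F)) = 1 := by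
    have h3 := congrArg (aevalAeval x y) hbez
    rw [map_add, map_mul, map_mul, hy, mul_zero, zero_add, aevalAeval_C] at h3
    rw [← map_mul, h3, hval]
  obtain ⟨-, e4⟩ := one_of_mul (apply_nonneg _ _) (apply_nonneg _ _) (hV.eval hxi hyi)
    (hF.derivative.eval hxi hyi) h2
  exact ⟨hxi, hyi, e2, e3, e4, hcoef⟩

end loc

/-- a denominator for a polynomial -/
lemma exists_intP {K : Type} [Field K] [NumberField K] (P : K[X]) : ∃ c : 𝓞 K, c ≠ 0 ∧
    ∀ (M : Type) [Field M] [NumberField M] [Algebra K M] (w : HeightOneSpectrum (𝓞 M)),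
      algebraMap (𝓞 K) (𝓞 M) c ∉ w.asIdeal → IntP w P := by
  classical
  obtain ⟨c, hc0, hc⟩ := H10UD.exists_den (K := K) (P.support.image P.coeff)
  refine ⟨c, hc0, fun M _ _ _ w hw i => ?_⟩
  have hcw : fv w (algebraMap K M (c : K)) = 1 := (fv_mem w (algebraMap (𝓞 K) (𝓞 M) c)).2 hw
  by_cases hi : i ∈ P.support
  · obtain ⟨r, hr⟩ := hc _ (Finset.mem_image_of_mem _ hi)
    have h4 : fv w (algebraMap K M ((r : 𝓞 K) : K)) ≤ 1 :=
      Pool.Agent.H10VJ.fv_int w (algebraMap (𝓞 K) (𝓞 M) r)
    rw [hr, map_mul, map_mul, hcw, one_mul] at h4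
    exact h4
  · rw [notMem_support_iff.1 hi, map_zero, map_zero]
    exact zero_le_one

/-- a denominator for a polynomial in two variables -/
lemma exists_intPP {K : Type} [Field K] [NumberField K] (F : K[X][X]) : ∃ c : 𝓞 K, c ≠ 0 ∧
    ∀ (M : Type) [Field M] [NumberField M] [Algebra K M] (w : HeightOneSpectrum (𝓞 M)),
      algebraMap (𝓞 K) (𝓞 M) c ∉ w.asIdeal → IntPP w F := by
  classical
  choose c hc0 hc using fun i => exists_intP (F.coeff i)
  refine ⟨∏ i ∈ F.support, c i, Finset.prod_ne_zero_iff.2 fun i _ => hc0 i,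
    fun M _ _ _ w hw i => ?_⟩
  by_cases hi : i ∈ F.support
  · refine hc i M w fun h => hw ?_
    rw [map_prod]
    exact Ideal.mem_of_dvd _ (Finset.dvd_prod_of_mem (fun i => algebraMap (𝓞 K) (𝓞 M) (c i)) hi) h
  · intro j
    rw [notMem_support_iff.1 hi, coeff_zero, map_zero, map_zero]
    exact zero_le_one

end Pool.Agent.H10PC
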