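import Mathlib
import Pool.Agent.H10UD.Ex

set_option autoImplicit false

/-!
The existence of the parameters.
-/

namespace Pool.Agent.H10PC

open NumberField IsDedekindDomain Module Height Pool.Agent.W231.V Pool.Agent.Y733.VR
  IntermediateField Pool.Agent.H10UD

/-- polynomials of small degree do not vanish -/
theorem eval_ne2 {K M : Type} [Field K] [NumberField K] [Field M] [NumberField M] [Algebra K M]
    (w : HeightOneSpectrum (𝓞 M)) {τ : ℝ} (hτ0 : 0 < τ) (hτ1 : τ < 1) {B n : ℕ}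
    (hK : KVal K w τ (B ^ n)) (y : ℕ → M) (hy : ∀ i < n, fv w (y i) = τ ^ B ^ i)
    {G : MvPolynomial (Fin n) K} (hG0 : G ≠ 0) (hd : G.totalDegree < B) :
    MvPolynomial.aeval (fun i : Fin n => y i) G ≠ 0 := by
  classical
  intro h0
  rw [MvPolynomial.aeval_def, MvPolynomial.eval₂_eq'] at h0
  set N : (Fin n →₀ ℕ) → ℕ := fun a => ∑ j : Fin n, a j * B ^ (j : ℕ) with hN
  have hpart : ∀ a ∈ G.support, ∀ j : Fin n, a j < B := by
    intro a ha j
    refine lt_of_le_of_lt ?_ hd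
    exact (Finsupp.le_degree j a).trans (by
      have := MvPolynomial.le_totalDegree ha
      rw [Finsupp.degree_eq_sum]
      rw [Finsupp.sum_fintype _ _ (fun _ => rfl)] at this
      exact this)
  have hval : ∀ a ∈ G.support, fv w (∏ i : Fin n, y i ^ a i) = τ ^ N a := by
    intro a _
    rw [map_prod]
    have h1 : ∀ i : Fin n, fv w (y i ^ a i) = τ ^ (a i * B ^ (i : ℕ)) := by
      intro i
      rw [map_pow, hy i i.2, ← pow_mul, mul_comm]
    rw [Finset.prod_congr rfl fun i _ => h1 i, Finset.prod_pow_eq_pow_sum]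
  have hdig : ∀ a (ha : a ∈ G.support), N a =
      (finFunctionFinEquiv (fun j : Fin n => (⟨a j, hpart a ha j⟩ : Fin B)) : ℕ) := by
    intro a ha
    rw [finFunctionFinEquiv_apply]
  have hlt : ∀ a ∈ G.support, N a < B ^ n := by
    intro a ha
    rw [hdig a ha]
    exact (finFunctionFinEquiv _).2
  have hinj : Set.InjOn N G.support := by
    intro a ha b hb hab
    rw [hdig a ha, hdig b hb] at hab
    have h1 := finFunctionFinEquiv.injective (Fin.ext hab)
    ext j
    exact congrArg Fin.val (congrFun h1 j)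
  have h1 := indep (K := K) w hτ0 hτ1 hK G.support (fun a => G.coeff a)
    (fun a => ∏ i : Fin n, y i ^ a i) N hval hlt hinj h0
  apply hG0
  ext a
  rw [MvPolynomial.coeff_zero]
  by_cases ha : a ∈ G.support
  · exact h1 a ha
  · exact MvPolynomial.notMem_support_iff.1 ha

theorem exists_par (K : Type) [Field K] [NumberField K] (n l : ℕ) (hn : 1 ≤ n) (hl : 1 ≤ l) :
    ∃ (π : 𝓞 K) (C0 : ℝ) (k0 : ℕ), π ≠ 0 ∧ ∀ k ≥ k0, π * 2 ^ k - 1 ≠ 0 ∧
      ∃ (M : Type) (_ : Field M) (_ : NumberField M) (_ : Algebra K M) (y t : ℕ → M),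
        (∀ i < n, t i + y i = 1) ∧ (∀ i < n, y i ≠ 0 ∧ t i ≠ 0) ∧
        K⟮y 0⟯ = ⊤ ∧ finrank K M = 2 ^ (n * l) ∧
        (∀ G : MvPolynomial (Fin n) K, G ≠ 0 → G.totalDegree < 2 ^ l →
          MvPolynomial.aeval (fun i : Fin n => y i) G ≠ 0) ∧
        (∀ i < n, k * Real.log 2 - C0 ≤ hh (t i)) ∧
        ∀ v : HeightOneSpectrum (𝓞 M),
          algebraMap (𝓞 K) (𝓞 M) (2 * π * (π * 2 ^ k - 1)) ∉ v.asIdeal →
          (∀ i < n, fv v (y i) = 1 ∧ fv v (t i) = 1) ∧
            ¬ v.asIdeal ∣ differentIdeal (𝓞 K) (𝓞 M) := by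
  classical
  obtain ⟨q, hq2⟩ := exists_above_three K
  obtain ⟨π, hπ⟩ := q.valuation_exists_uniformizer' K
  have hπ0 : π ≠ 0 := by
    rintro rfl
    have h1 : q.valuation K ((0 : 𝓞 K) : K) = 0 := by
      rw [show ((0 : 𝓞 K) : K) = 0 from rfl, map_zero]
    rw [h1] at hπ
    exact (WithZero.exp_ne_zero (a := (-1 : ℤ))) hπ.symm
  have hπK : (π : K) ≠ 0 := by rwa [Ne, RingOfIntegers.coe_eq_zero_iff]
  obtain ⟨m, hm⟩ : ∃ m, m + 1 = n * l := ⟨n * l - 1, Nat.sub_add_cancel (Nat.mul_pos hn hl)⟩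
  obtain ⟨δ, hδ, harch⟩ := arch_chain m (1 / 32) (by norm_num)
  obtain ⟨w0, hw0⟩ := Finite.exists_min fun w : InfinitePlace K => w (π : K)
  set c0 : ℝ := w0 (π : K) with hc0
  have hc0pos : 0 < c0 := w0.pos_iff.2 hπK
  obtain ⟨k1, hk1⟩ := pow_unbounded_of_one_lt (max (1 / (c0 * δ)) (1 / c0))
    (by norm_num : (1 : ℝ) < 2)
  have hl2 : 0 < Real.log 2 := Real.log_pos (by norm_num)
  refine ⟨π, hh (π : K) + 7 * (m + 1) * Real.log 2, k1 + 1, hπ0, ?_⟩
  intro k hk
  have h2k : max (1 / (c0 * δ)) (1 / c0) < (2 : ℝ) ^ k :=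
    hk1.trans_le (pow_le_pow_right₀ (by norm_num) (by omega))
  have h2k1 : 1 / (c0 * δ) < (2 : ℝ) ^ k := (le_max_left _ _).trans_lt h2k
  have h2k2 : 1 / c0 < (2 : ℝ) ^ k := (le_max_right _ _).trans_lt h2k
  have hΔK : (π : K) * 2 ^ k - 1 ≠ 0 := by
    intro h
    have h1 : (π : K) * 2 ^ k = 1 := sub_eq_zero.1 h
    have h2 := congrArg w0 h1
    rw [map_mul, map_pow, map_one] at h2
    have h3 : w0 (2 : K) = 2 := by
      have := InfinitePlace.map_natCast (K := K) w0 2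
      simpa using this
    rw [h3] at h2
    rw [div_lt_iff₀ hc0pos] at h2k2
    change c0 * 2 ^ k = 1 at h2
    linarith
  have hΔ : π * 2 ^ k - 1 ≠ 0 := by
    intro h
    apply hΔK
    have := congrArg (algebraMap (𝓞 K) K) h
    rw [map_sub, map_mul, map_pow, map_one, map_zero] at this
    rw [show (algebraMap (𝓞 K) K) 2 = 2 from map_ofNat _ 2] at this
    exact this
  refine ⟨hΔ, ?_⟩
  set W : K := 1 / ((π : K) * 2 ^ k) with hW
  obtain ⟨M, fM, nM, aM, u, hu, htop⟩ := exists_chain K W m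
  have hdeg : finrank K M ≤ 2 ^ (m + 1) := chain_deg m K M W u hu htop
  -- the prime above `q`
  obtain ⟨w, hw⟩ := exists_over M q
  obtain ⟨e, he, hev⟩ := val_under (K := K) w
  rw [hw] at hev
  have hw2 : fv w (2 : M) = 1 := by
    rw [fv_eq_one_iff]
    have h1 := hev 2
    rw [show algebraMap K M 2 = 2 from map_ofNat _ 2, (fv_eq_one_iff q 2).1 hq2, one_pow] at h1
    exact h1.symm
  set ρ : ℝ := fv w (algebraMap K M (π : K)) with hρ
  have hρ0 : 0 < ρ := (fv w).pos (by rwa [Ne, FaithfulSMul.algebraMap_eq_zero_iff])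
  have hρ1 : ρ < 1 := by
    rw [hρ, fv_lt_one_iff, ← hev]
    have h1 : q.valuation K (π : K) = WithZero.exp (-1 : ℤ) := hπ
    rw [h1]
    have h2 : (WithZero.exp (-1 : ℤ) : WithZero (Multiplicative ℤ)) < 1 := by
      rw [← WithZero.exp_zero, WithZero.exp_lt_exp]
      norm_num
    exact pow_lt_one₀ zero_le h2 he
  have hWM : algebraMap K M W = 1 / (algebraMap K M (π : K) * 2 ^ k) := by
    rw [hW, map_div₀, map_one, map_mul, map_pow, map_ofNat]
  have hπM : algebraMap K M (π : K) ≠ 0 := by rwa [Ne, FaithfulSMul.algebraMap_eq_zero_iff]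
  have hwW : fv w (algebraMap K M W) = ρ⁻¹ := by
    rw [hWM, map_div₀, map_mul, map_pow, hw2, map_one, one_pow, mul_one, one_div]
  have hval := chain_val w hu hρ0 hρ1 hw2 hwW
  have hne : ∀ j ≤ m, 1 + u j ≠ 0 := by
    intro j hj h
    have h1 := fv_one_add w (hval j hj).1.1
    rw [h, map_zero] at h1
    have : (0 : ℝ) < max 1 (fv w (u j)) := lt_max_of_lt_left one_pos
    linarith
  have hne' : ∀ j ≤ m, 1 - u j ≠ 0 := by
    intro j hj h
    have h1 := fv_one_sub w (hval j hj).1.1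
    rw [h, map_zero] at h1
    have : (0 : ℝ) < max 1 (fv w (u j)) := lt_max_of_lt_left one_pos
    linarith
  have hyne : ∀ j ≤ m, yy (u j) ≠ 0 := fun j hj => by
    unfold yy
    exact div_ne_zero (mul_ne_zero (by norm_num) (hval j hj).1.2) (pow_ne_zero _ (hne j hj))
  have htne : ∀ j ≤ m, tt (u j) ≠ 0 := fun j hj => by
    unfold tt
    exact pow_ne_zero _ (div_ne_zero (hne' j hj) (hne j hj))
  -- the value of the last parameter
  set τ : ℝ := fv w (yy (u m)) with hτ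
  have hτ0 : 0 < τ := (fv w).pos (hyne m le_rfl)
  have hτρ : τ ^ 2 ^ (m + 1) = ρ := (hval m le_rfl).2
  have hτ1 : τ < 1 := by
    by_contra! h
    have := one_le_pow₀ h (n := 2 ^ (m + 1))
    linarith
  have hKV : KVal K w τ (2 ^ (m + 1)) := by
    intro c hc
    obtain ⟨a, ha⟩ := kval w hπK (by rw [hw]; exact hπ) c hc
    refine ⟨a, ?_⟩
    rw [ha, ← hρ, ← hτρ, zpow_mul, zpow_natCast]
  have hyval : ∀ j ≤ m, fv w (yy (u j)) = τ ^ 2 ^ (m - j) := by
    intro j hj
    have h1 := (hval j hj).2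
    have h2 : (τ ^ 2 ^ (m - j)) ^ 2 ^ (j + 1) = ρ := by
      rw [← pow_mul, ← pow_add, show m - j + (j + 1) = m + 1 by omega, hτρ]
    exact (pow_left_inj₀ (apply_nonneg _ _) (pow_nonneg hτ0.le _)
      (pow_ne_zero _ two_ne_zero)).1 (h1.trans h2.symm)
  have hgen := gen_top (K := K) w hτ0 hτ1 hKV (y := yy (u m)) rfl hdeg
  -- the indices
  set J : ℕ → ℕ := fun i => (n - i) * l - 1 with hJ
  have hJpos : ∀ i < n, 1 ≤ (n - i) * l := fun i hi => Nat.mul_pos (by omega) hl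
  have hJlt : ∀ i j, i < j → j < n → J j < J i := by
    intro i j hij hjn
    have h1 : (n - j) * l < (n - i) * l := Nat.mul_lt_mul_of_pos_right (by omega) hl
    have h2 := hJpos j hjn
    simp only [hJ]
    omega
  have hJm : ∀ i < n, J i ≤ m := by
    intro i hi
    have h1 : (n - i) * l ≤ n * l := Nat.mul_le_mul_right _ (by omega)
    simp only [hJ]
    omega
  have hJ0 : J 0 = m := by
    simp only [hJ, Nat.sub_zero]
    omega
  have hJsub : ∀ i < n, m - J i = l * i := by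
    intro i hi
    have h1 : (n - i) * l = n * l - i * l := Nat.sub_mul _ _ _
    have h2 : i * l ≤ n * l := Nat.mul_le_mul_right _ hi.le
    have h3 := hJpos i hi
    simp only [hJ]
    rw [mul_comm l i]
    omega
  refine ⟨M, fM, nM, aM, fun i => yy (u (J i)), fun i => tt (u (J i)), ?_, ?_, ?_, ?_, ?_, ?_, ?_⟩
  · exact fun i hi => tt_add_yy (hne _ (hJm i hi))
  · exact fun i hi => ⟨hyne _ (hJm i hi), htne _ (hJm i hi)⟩
  · simp only [hJ0]
    exact hgen.1
  · rw [hgen.2, hm]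
  · intro G hG0 hd
    have hKV' : KVal K w τ ((2 ^ l) ^ n) := by
      rw [← pow_mul, mul_comm l n, ← hm]
      exact hKV
    refine eval_ne2 w hτ0 hτ1 hKV' (fun i => yy (u (J i))) ?_ hG0 hd
    intro i hi
    rw [hyval _ (hJm i hi), hJsub i hi, pow_mul]
  · -- the heights
    intro i hi
    have e1 := hh_tt hu hne (J i) (hJm i hi)
    rw [hh_ext] at e1
    have e2 : hh W = hh ((π : K) * 2 ^ k) := by
      rw [hW, one_div, hh_inv]
    have e3 : (k : ℝ) * Real.log 2 ≤ hh ((π : K) * 2 ^ k) + hh (π : K) := by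
      have e4 := hh_div_le ((π : K) * 2 ^ k) (π : K)
      rw [mul_div_cancel_left₀ _ hπK, hh_pow] at e4
      have e5 := hh_natCast (K := K) 2
      push_cast at e5
      rw [e5] at e4
      exact e4
    have e6 : (J i : ℝ) ≤ m := by exact_mod_cast hJm i hi
    have e7 : 7 * ((J i : ℝ) + 1) * Real.log 2 ≤ 7 * ((m : ℝ) + 1) * Real.log 2 := by
      gcongr
    rw [e2] at e1
    linarith
  · -- the good primes
    intro v hv
    have hmul : ∀ a b : 𝓞 K, algebraMap (𝓞 K) (𝓞 M) (a * b) ∉ v.asIdeal →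
        algebraMap (𝓞 K) (𝓞 M) a ∉ v.asIdeal ∧ algebraMap (𝓞 K) (𝓞 M) b ∉ v.asIdeal := by
      intro a b hab
      rw [map_mul] at hab
      exact ⟨fun h => hab (Ideal.mul_mem_right _ _ h), fun h => hab (Ideal.mul_mem_left _ _ h)⟩
    obtain ⟨hv1, hv2⟩ := hmul _ _ hv
    obtain ⟨hv3, hv4⟩ := hmul _ _ hv1
    have h2 : fv v (2 : M) = 1 := by
      have := (fv_mem v (algebraMap (𝓞 K) (𝓞 M) 2)).2 hv3
      rw [map_ofNat] at this
      exact this
    have hπv : fv v (algebraMap K M (π : K)) = 1 := (fv_mem v (algebraMap (𝓞 K) (𝓞 M) π)).2 hv4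
    have hΔv : fv v (algebraMap K M (π : K) * 2 ^ k - 1) = 1 := by
      have h3 := (fv_mem v (algebraMap (𝓞 K) (𝓞 M) (π * 2 ^ k - 1))).2 hv2
      have h4 : ((algebraMap (𝓞 K) (𝓞 M) (π * 2 ^ k - 1) : 𝓞 M) : M) =
          algebraMap K M (π : K) * 2 ^ k - 1 := by
        rw [map_sub, map_mul, map_pow, map_ofNat, map_one]
        push_cast
        rfl
      rwa [h4] at h3
    have hWv : fv v (algebraMap K M W) = 1 := by
      rw [hWM, map_div₀, map_mul, map_pow, h2, hπv, map_one]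
      norm_num
    have hWv1 : fv v (1 - algebraMap K M W) = 1 := by
      have h3 : 1 - algebraMap K M W = (algebraMap K M (π : K) * 2 ^ k - 1) /
          (algebraMap K M (π : K) * 2 ^ k) := by
        rw [hWM]
        field_simp
      rw [h3, map_div₀, hΔv, map_mul, map_pow, h2, hπv]
      norm_num
    have hgood := good_chain v hu hne h2 hWv hWv1
    refine ⟨fun i hi => ⟨(hgood _ (hJm i hi)).2.2, (hgood _ (hJm i hi)).2.1⟩, ?_⟩
    refine chain_unr m K M W u hu htop v ?_ fun j hj => ?_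
    · exact (fv_eq_one_iff v 2).1 h2
    · exact (fv_eq_one_iff v _).1 (hgood j hj).1

end Pool.Agent.H10PC
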