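import Mathlib
import Pool.Agent.H10PC.Loc2
import Pool.Agent.H10PC.Par
import Pool.Agent.H10PC.Hp
import Pool.Agent.H10PC.Elim
import Pool.Agent.H10UD.Dif

set_option autoImplicit false

/-!
Assembly.
-/

namespace Pool.Agent.H10PC

open NumberField IsDedekindDomain Module Height Pool.Agent.W231.V Pool.Agent.Y733.VR Polynomial
  Pool.Agent.H10UD

/-- `β` is a polynomial whose critical points lie over `0` and `1`, and the zeros of `R` and of the
discriminant of `F` lie over `0` and `1`. -/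
def Ctrl {K : Type} [Field K] (β R : K[X]) (F : K[X][X]) : Prop :=
  0 < β.natDegree ∧ ∃ N : ℕ, R * derivative β ∣ (β * (β - 1)) ^ N ∧
    C ((β * (β - 1)) ^ N) ∈ Ideal.span {F, derivative F}

lemma Ctrl.nonzero {K M : Type} [Field K] [Field M] [Algebra K M] {β R : K[X]} {F : K[X][X]}
    (h : Ctrl β R F) {x : M} (h0 : aeval x β ≠ 0) (h1 : aeval x β - 1 ≠ 0) : aeval x R ≠ 0 := by
  obtain ⟨-, N, ⟨Q, hQ⟩, -⟩ := h
  intro hR
  have h2 := congrArg (aeval x) hQ
  rw [map_mul, map_mul, hR, zero_mul, zero_mul, map_pow, map_mul, map_sub, map_one] at h2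
  exact pow_ne_zero _ (mul_ne_zero h0 h1) h2

/-- the good primes -/
lemma exists_bad {K : Type} [Field K] [NumberField K] {β R : K[X]} {F : K[X][X]} (hF : F.Monic)
    (h : Ctrl β R F) : ∃ c : 𝓞 K, c ≠ 0 ∧
    ∀ (M : Type) [Field M] [NumberField M] [Algebra K M] (w : HeightOneSpectrum (𝓞 M)),
      algebraMap (𝓞 K) (𝓞 M) c ∉ w.asIdeal →
      (IntP w β ∧ fv w (algebraMap K M β.leadingCoeff) = 1) ∧
      ∀ x y t : M, aeval x β = t → aevalAeval x y F = 0 → fv w t = 1 → fv w (t - 1) = 1 →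
        fv w x ≤ 1 ∧ fv w y ≤ 1 ∧ fv w (aeval x R) = 1 ∧ fv w (aeval x (derivative β)) = 1 ∧
        fv w (aevalAeval x y (derivative F)) = 1 ∧ ∀ j, fv w (aeval x (F.coeff j)) ≤ 1 := by
  obtain ⟨hd, N, ⟨Q, hQ⟩, hbez⟩ := h
  obtain ⟨U, V, hUV⟩ := Ideal.mem_span_pair.1 hbez
  obtain ⟨c1, h10, h1⟩ := exists_intP β
  obtain ⟨c2, h20, h2⟩ := exists_intP R
  obtain ⟨c3, h30, h3⟩ := exists_intP Q
  obtain ⟨c4, h40, h4⟩ := exists_intPP F
  obtain ⟨c5, h50, h5⟩ := exists_intPP V
  obtain ⟨c6, h60, h6⟩ := exists_intP (C β.leadingCoeff⁻¹)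
  refine ⟨c1 * c2 * c3 * c4 * c5 * c6, by
    simp only [ne_eq, mul_eq_zero, not_or]
    exact ⟨⟨⟨⟨⟨h10, h20⟩, h30⟩, h40⟩, h50⟩, h60⟩, fun M _ _ _ w hw => ?_⟩
  have hmul : ∀ a b : 𝓞 K, algebraMap (𝓞 K) (𝓞 M) (a * b) ∉ w.asIdeal →
      algebraMap (𝓞 K) (𝓞 M) a ∉ w.asIdeal ∧ algebraMap (𝓞 K) (𝓞 M) b ∉ w.asIdeal := by
    intro a b hab
    rw [map_mul] at hab
    exact ⟨fun h => hab (Ideal.mul_mem_right _ _ h), fun h => hab (Ideal.mul_mem_left _ _ h)⟩
  obtain ⟨hw, w6⟩ := hmul _ _ hw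
  obtain ⟨hw, w5⟩ := hmul _ _ hw
  obtain ⟨hw, w4⟩ := hmul _ _ hw
  obtain ⟨hw, w3⟩ := hmul _ _ hw
  obtain ⟨w1, w2⟩ := hmul _ _ hw
  have hlc0 : β.leadingCoeff ≠ 0 := leadingCoeff_ne_zero.2 fun h => by
    rw [h] at hd; simp at hd
  have hlcM : algebraMap K M β.leadingCoeff ≠ 0 := by
    rwa [Ne, FaithfulSMul.algebraMap_eq_zero_iff]
  have hlc : fv w (algebraMap K M β.leadingCoeff) = 1 := by
    refine le_antisymm (h1 M w w1 _) ?_
    have e1 := h6 M w w6 0
    rw [coeff_C_zero, map_inv₀, map_inv₀] at e1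
    exact (inv_le_one₀ ((fv w).pos hlcM)).1 e1
  refine ⟨⟨h1 M w w1, hlc⟩, fun x y t hx hy ht ht1 => ?_⟩
  exact good_point (h1 M w w1) (h2 M w w2) (h3 M w w3) (h4 M w w4) (h5 M w w5) hlc hF hQ hUV hx hy
    ht ht1

/-- generation -/
lemma adjoin_sub {K M M' : Type} [Field K] [Field M] [Field M'] [Algebra K M] {s : Set M}
    (hs : IntermediateField.adjoin K s = ⊤) (φ : M →+* M') (E : Subfield M')
    (h1 : ∀ k : K, φ (algebraMap K M k) ∈ E) (h2 : ∀ z ∈ s, φ z ∈ E) (z : M) : φ z ∈ E := by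
  let I : IntermediateField K M := { E.comap φ with
    algebraMap_mem' := h1 }
  have h3 : IntermediateField.adjoin K s ≤ I := IntermediateField.adjoin_le_iff.2 h2
  rw [hs] at h3
  exact h3 (Set.mem_univ z)

lemma aeval_mem {K M : Type} [Field K] [Field M] [Algebra K M] (E : IntermediateField K M)
    {x : M} (hx : x ∈ E) (p : K[X]) : aeval x p ∈ E := by
  rw [aeval_eq_sum_range]
  refine sum_mem fun i _ => ?_
  rw [Algebra.smul_def]
  exact mul_mem (E.algebraMap_mem _) (pow_mem hx i)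

/-- units and valuations in towers -/
lemma one_up {L M : Type} [Field L] [NumberField L] [Field M] [NumberField M] [Algebra L M]
    (w : HeightOneSpectrum (𝓞 M)) {z : L} (h : fv (w.under (𝓞 L)) z = 1) :
    fv w (algebraMap L M z) = 1 := by
  obtain ⟨e, he, hv⟩ := val_under (K := L) w
  rw [fv_eq_one_iff] at h ⊢
  rw [← hv, h, one_pow]

lemma one_down {L M : Type} [Field L] [NumberField L] [Field M] [NumberField M] [Algebra L M]
    (w : HeightOneSpectrum (𝓞 M)) {z : L} (h : fv w (algebraMap L M z) = 1) :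
    (w.under (𝓞 L)).valuation L z = 1 := by
  obtain ⟨e, he, hv⟩ := val_under (K := L) w
  rw [fv_eq_one_iff, ← hv] at h
  exact wz_one he h

set_option maxHeartbeats 4000000 in
theorem main (K : Type) [Field K] [NumberField K] (n : ℕ) (hn : 1 ≤ n) (F : Fin n → K[X][X])
    (R β : Fin n → K[X]) (hF : ∀ i, (F i).Monic ∧ 0 < (F i).natDegree)
    (hC : ∀ i, Ctrl (β i) (R i) (F i)) (c : Fin n → ℝ) (hc : ∀ i, 0 ≤ c i)
    (hc1 : 1 < ∑ i, c i / (β i).natDegree) (g : MvPolynomial (Fin n) K) (hg : g ≠ 0) :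
    ∃ r : ℕ, ∀ B : ℝ, ∃ (M : Type) (_ : Field M) (_ : NumberField M) (_ : Algebra K M)
      (x y : Fin n → M) (T : Finset (HeightOneSpectrum (𝓞 M))),
      IntermediateField.adjoin K (Set.range x ∪ Set.range y) = ⊤ ∧ finrank K M ≤ r ∧
      (∀ i, aevalAeval (x i) (y i) (F i) = 0) ∧ MvPolynomial.aeval x g ≠ 0 ∧
      (∀ i, aeval (x i) (R i) ≠ 0) ∧ (∀ i, B ≤ logHeight₁ (x i) / finrank K M) ∧
      (∀ w, w ∉ T → ∀ i, fv w (x i) ≤ 1 ∧ fv w (aeval (x i) (R i)) = 1) ∧
      (∑ w ∈ T, ell w) / finrank K M +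
        (Real.log |(discr M : ℝ)| / finrank K M - Real.log |(discr K : ℝ)|) + B ≤
        ∑ i, c i * (logHeight₁ (x i) / finrank K M) := by
  classical
  obtain ⟨r0, hr0, hr0'⟩ := exists_elim β (fun i => (hC i).1) hg
  -- the polynomial in the `1 - t i`
  set G : MvPolynomial (Fin n) K := MvPolynomial.aeval
    (fun i => (1 - MvPolynomial.X i : MvPolynomial (Fin n) K)) r0 with hG
  have hGev : ∀ (M : Type) [Field M] [Algebra K M] (z : Fin n → M),
      MvPolynomial.aeval z G = MvPolynomial.aeval (fun i => 1 - z i) r0 := by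
    intro M _ _ z
    have h1 : ((MvPolynomial.aeval z : MvPolynomial (Fin n) K →ₐ[K] M).comp
        (MvPolynomial.aeval fun i => (1 - MvPolynomial.X i : MvPolynomial (Fin n) K))) =
        MvPolynomial.aeval (fun i => 1 - z i) := by
      apply MvPolynomial.algHom_ext
      intro j
      rw [AlgHom.comp_apply, MvPolynomial.aeval_X, MvPolynomial.aeval_X, map_sub, map_one,
        MvPolynomial.aeval_X]
    rw [hG, ← h1]
    rfl
  have hG0 : G ≠ 0 := by
    intro h
    apply hr0
    have h1 : ((MvPolynomial.aeval (fun i => (1 - MvPolynomial.X i : MvPolynomial (Fin n) K)) :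
        MvPolynomial (Fin n) K →ₐ[K] MvPolynomial (Fin n) K).comp
        (MvPolynomial.aeval fun i => (1 - MvPolynomial.X i : MvPolynomial (Fin n) K))) =
        AlgHom.id K _ := by
      apply MvPolynomial.algHom_ext
      intro j
      rw [AlgHom.comp_apply, MvPolynomial.aeval_X, map_sub, map_one, MvPolynomial.aeval_X]
      simp
    have h2 := congrArg (fun φ : MvPolynomial (Fin n) K →ₐ[K] MvPolynomial (Fin n) K => φ r0) h1
    simp only [AlgHom.comp_apply, AlgHom.id_apply] at h2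
    rw [← hG, h, map_zero] at h2
    exact h2.symm
  set l : ℕ := G.totalDegree + 1 with hl
  have hGl : G.totalDegree < 2 ^ l := by
    have h1 : l < 2 ^ l := Nat.lt_two_pow_self
    omega
  obtain ⟨π, C0, k0, hπ0, hex⟩ := exists_par K n l hn (by omega)
  choose cb hcb0 hcb using fun i => exists_bad (hF i).1 (hC i)
  choose CB hCB0 hCB using fun i => hh_poly (β i)
  set c1 : 𝓞 K := ∏ i, cb i with hc1def
  have hc10 : c1 ≠ 0 := Finset.prod_ne_zero_iff.2 fun i _ => hcb0 i
  set r : ℕ := 2 ^ (n * l) * (∏ i, (β i).natDegree) * ∏ i, (F i).natDegree with hr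
  refine ⟨r, fun B => ?_⟩
  -- the constants
  have hl2 : 0 < Real.log 2 := Real.log_pos (by norm_num)
  obtain ⟨N0, hN0⟩ : ∃ N0 : ℝ, N0 = finrank ℚ K := ⟨_, rfl⟩
  have hN0pos : 0 < N0 := by rw [hN0]; exact_mod_cast finrank_pos
  obtain ⟨σ, hσ⟩ : ∃ σ : ℝ, σ = ∑ i, c i / (β i).natDegree := ⟨_, rfl⟩
  have hσ1 : 0 < σ - 1 := by rw [hσ]; linarith
  have hbpos : ∀ i, (0 : ℝ) < (β i).natDegree := fun i => by exact_mod_cast (hC i).1
  obtain ⟨C3, hC3⟩ : ∃ C3, C3 = Real.log (r.factorial : ℝ) + hh (c1 : K) + hh (2 * (π : K)) +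
    hh (π : K) + Real.log 2 := ⟨_, rfl⟩
  obtain ⟨C4, hC4⟩ : ∃ C4, C4 = C0 + ∑ i, CB i := ⟨_, rfl⟩
  obtain ⟨b', hb'⟩ : ∃ b' : ℝ, b' = ∑ i, ((β i).natDegree : ℝ) := ⟨_, rfl⟩
  have hble : ∀ i, ((β i).natDegree : ℝ) ≤ b' := fun i => by
    rw [hb']
    exact Finset.single_le_sum (f := fun i => ((β i).natDegree : ℝ))
      (fun i _ => (hbpos i).le) (Finset.mem_univ i)
  obtain ⟨k2, hk2⟩ := exists_nat_ge (max ((N0 * C3 + B + N0 * C4 * σ) /
    (N0 * Real.log 2 * (σ - 1))) ((|B| * b' / N0 + C4) / Real.log 2))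
  obtain ⟨k, hk⟩ : ∃ k, k = max k0 k2 := ⟨_, rfl⟩
  have hkk0 : k0 ≤ k := by rw [hk]; exact le_max_left _ _
  have hkk2 : (k2 : ℝ) ≤ k := by rw [hk]; exact_mod_cast le_max_right _ _
  have hineq1 : N0 * C3 + B + N0 * C4 * σ ≤ N0 * (k * Real.log 2) * (σ - 1) := by
    have h1 := (le_max_left _ _).trans (hk2.trans hkk2)
    rw [div_le_iff₀ (by positivity)] at h1
    linarith
  have hineq2 : |B| * b' / N0 ≤ k * Real.log 2 - C4 := by
    have h1 := (le_max_right _ _).trans (hk2.trans hkk2)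
    rw [div_le_iff₀ hl2] at h1
    linarith
  obtain ⟨hΔ, M0, fM0, nM0, aM0, y0, t, hty, hyt, htop0, hdeg0, hnv, hht, hgood⟩ := hex k hkk0
  -- the indices
  let e : ℕ → Fin n := fun i => if h : i < n then ⟨i, h⟩ else ⟨0, hn⟩
  have he : ∀ i : Fin n, e i = i := fun i => by
    simp only [e, i.2, dif_pos]
  -- the first extension
  have hlc0 : ∀ i, (β i).leadingCoeff ≠ 0 := fun i => leadingCoeff_ne_zero.2 fun h => by
    have := (hC i).1
    rw [h] at this; simp at this
  have hlcM0 : ∀ i, algebraMap K M0 (β i).leadingCoeff ≠ 0 := fun i => by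
    rw [Ne, FaithfulSMul.algebraMap_eq_zero_iff]
    exact hlc0 i
  let f1 : ℕ → M0[X] := fun i => C (algebraMap K M0 (β (e i)).leadingCoeff)⁻¹ *
    ((β (e i)).map (algebraMap K M0) - C (t i))
  have hdegsub : ∀ i, ((β (e i)).map (algebraMap K M0) - C (t i)).natDegree =
      (β (e i)).natDegree := by
    intro i
    rw [natDegree_sub_C, natDegree_map]
  have hf1d : ∀ i, (f1 i).natDegree = (β (e i)).natDegree := by
    intro i
    simp only [f1]
    rw [natDegree_C_mul (inv_ne_zero (hlcM0 _)), hdegsub]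
  have hf1m : ∀ i, (f1 i).Monic := by
    intro i
    have h1 : ((β (e i)).map (algebraMap K M0) - C (t i)).leadingCoeff =
        algebraMap K M0 (β (e i)).leadingCoeff := by
      rw [leadingCoeff_sub_of_degree_lt, leadingCoeff_map]
      refine degree_C_le.trans_lt ?_
      rw [degree_map, ← natDegree_pos_iff_degree_pos]
      exact (hC _).1
    simp only [f1]
    rw [Monic, leadingCoeff_mul, leadingCoeff_C, h1, inv_mul_cancel₀ (hlcM0 _)]
  obtain ⟨M1, fM1, nM1, aM1, x1, hx1, htop1⟩ := exists_gens M0 n f1 (fun i _ => by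
    rw [hf1d]; exact (hC _).1)
  have hdeg1 : finrank M0 M1 ≤ ∏ i, (β i).natDegree := by
    have h1 := gens_deg n M0 M1 f1 x1 (fun i hi => ⟨hf1m i, hx1 i hi⟩) htop1
    refine h1.trans (le_of_eq ?_)
    rw [Finset.prod_range]
    refine Finset.prod_congr rfl fun i _ => ?_
    rw [hf1d, he]
  let aK1 : Algebra K M1 := ((algebraMap M0 M1).comp (algebraMap K M0)).toAlgebra
  have sK1 : IsScalarTower K M0 M1 := IsScalarTower.of_algebraMap_eq fun _ => rfl
  have hx1' : ∀ i < n, aeval (x1 i) (β (e i)) = algebraMap M0 M1 (t i) := by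
    intro i hi
    have h1 := hx1 i hi
    simp only [f1] at h1
    rw [map_mul, mul_eq_zero, map_sub, aeval_map_algebraMap, aeval_C, aeval_C] at h1
    rcases h1 with h1 | h1
    · exfalso
      rw [FaithfulSMul.algebraMap_eq_zero_iff] at h1
      exact inv_ne_zero (hlcM0 _) h1
    · exact sub_eq_zero.1 h1
  -- the second extension
  let f2 : ℕ → M1[X] := fun i =>
    (F (e i)).map ((aeval (x1 i) : K[X] →ₐ[K] M1) : K[X] →+* M1)
  have hf2m : ∀ i, (f2 i).Monic := fun i => (hF _).1.map _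
  have hf2d : ∀ i, (f2 i).natDegree = (F (e i)).natDegree := fun i =>
    (hF _).1.natDegree_map _
  obtain ⟨M2, fM2, nM2, aM2, y1, hy1, htop2⟩ := exists_gens M1 n f2 (fun i _ => by
    rw [hf2d]; exact (hF _).2)
  have hdeg2 : finrank M1 M2 ≤ ∏ i, (F i).natDegree := by
    have h1 := gens_deg n M1 M2 f2 y1 (fun i hi => ⟨hf2m i, hy1 i hi⟩) htop2
    refine h1.trans (le_of_eq ?_)
    rw [Finset.prod_range]
    refine Finset.prod_congr rfl fun i _ => ?_
    rw [hf2d, he]
  let aK2 : Algebra K M2 := ((algebraMap M1 M2).comp (algebraMap K M1)).toAlgebra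
  have sK2 : IsScalarTower K M1 M2 := IsScalarTower.of_algebraMap_eq fun _ => rfl
  have hfin : finrank K M2 ≤ r := by
    rw [← finrank_mul_finrank K M1 M2, ← finrank_mul_finrank K M0 M1, hdeg0, hr]
    exact Nat.mul_le_mul (Nat.mul_le_mul le_rfl hdeg1) hdeg2
  have hdpos : (0 : ℝ) < finrank K M2 := by exact_mod_cast finrank_pos
  have hQM : (finrank ℚ M2 : ℝ) = N0 * finrank K M2 := by
    rw [hN0]; exact finrank_tower K M2
  -- the points
  obtain ⟨X', hX'⟩ : ∃ X' : ℕ → M2, ∀ i, X' i = algebraMap M1 M2 (x1 i) := ⟨_, fun i => rfl⟩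
  obtain ⟨T', hT'⟩ : ∃ T' : ℕ → M2, ∀ i, T' i = algebraMap M1 M2 (algebraMap M0 M1 (t i)) :=
    ⟨_, fun i => rfl⟩
  have hβX : ∀ i < n, aeval (X' i) (β (e i)) = T' i := by
    intro i hi
    rw [hX', hT', aeval_algebraMap_apply, hx1' i hi]
  have hmapF : ∀ i, ∀ P : K[X][X], aevalAeval (X' i) (y1 i) P =
      aeval (y1 i) (P.map ((aeval (x1 i) : K[X] →ₐ[K] M1) : K[X] →+* M1)) := by
    intro i P
    rw [aevalAeval_eq, ← eval_map_algebraMap, Polynomial.map_map]
    congr 2
    ext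
    · simp only [RingHom.comp_apply, RingHom.coe_coe, aeval_C]
      rfl
    · simp only [RingHom.comp_apply, RingHom.coe_coe, aeval_X, hX']
  have hFX : ∀ i < n, aevalAeval (X' i) (y1 i) (F (e i)) = 0 := by
    intro i hi
    rw [hmapF]
    exact hy1 i hi
  have hT1 : ∀ i < n, T' i - 1 = -algebraMap M1 M2 (algebraMap M0 M1 (y0 i)) := by
    intro i hi
    rw [hT']
    have h1 := congrArg (fun z => algebraMap M1 M2 (algebraMap M0 M1 z)) (hty i hi)
    simp only [map_add, map_one] at h1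
    linear_combination h1
  have hTne : ∀ i < n, T' i ≠ 0 ∧ T' i - 1 ≠ 0 := by
    intro i hi
    obtain ⟨h1, h2⟩ := hyt i hi
    constructor
    · rw [hT', Ne, FaithfulSMul.algebraMap_eq_zero_iff, FaithfulSMul.algebraMap_eq_zero_iff]
      exact h2
    · rw [hT1 i hi, neg_ne_zero, Ne, FaithfulSMul.algebraMap_eq_zero_iff,
        FaithfulSMul.algebraMap_eq_zero_iff]
      exact h1
  -- the primes
  set a : 𝓞 K := c1 * (2 * π * (π * 2 ^ k - 1)) with ha
  have ha0 : a ≠ 0 := mul_ne_zero hc10 (mul_ne_zero (mul_ne_zero two_ne_zero hπ0) hΔ)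
  have haM : ((algebraMap (𝓞 K) (𝓞 M2) a : 𝓞 M2) : M2) ≠ 0 := by
    rw [Ne, RingOfIntegers.coe_eq_zero_iff, FaithfulSMul.algebraMap_eq_zero_iff]
    exact ha0
  set T : Finset (HeightOneSpectrum (𝓞 M2)) := (fv_support_finite haM).toFinset with hT
  have hTmem : ∀ w, w ∈ T ↔ algebraMap (𝓞 K) (𝓞 M2) a ∈ w.asIdeal := by
    intro w
    rw [hT, Set.Finite.mem_toFinset, Set.mem_ofPred_eq, Ne, fv_mem, not_not]
  have hcomp : ∀ b : 𝓞 K, algebraMap (𝓞 M1) (𝓞 M2) (algebraMap (𝓞 M0) (𝓞 M1)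
      (algebraMap (𝓞 K) (𝓞 M0) b)) = algebraMap (𝓞 K) (𝓞 M2) b := by
    intro b
    apply RingOfIntegers.coe_injective
    rfl
  have hprime : ∀ w, w ∉ T → (∀ i < n, fv w (X' i) ≤ 1 ∧ fv w (y1 i) ≤ 1 ∧
      fv w (aeval (X' i) (R (e i))) = 1 ∧ fv w (aeval (X' i) (derivative (β (e i)))) = 1 ∧
      fv w (aevalAeval (X' i) (y1 i) (derivative (F (e i)))) = 1 ∧
      ∀ j, fv w (aeval (X' i) ((F (e i)).coeff j)) ≤ 1) ∧
      ¬ w.asIdeal ∣ differentIdeal (𝓞 K) (𝓞 M2) := by
    intro w hw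
    rw [hTmem, ha, map_mul] at hw
    have hwc : algebraMap (𝓞 K) (𝓞 M2) c1 ∉ w.asIdeal := fun h => hw (Ideal.mul_mem_right _ _ h)
    have hwp : algebraMap (𝓞 K) (𝓞 M2) (2 * π * (π * 2 ^ k - 1)) ∉ w.asIdeal :=
      fun h => hw (Ideal.mul_mem_left _ _ h)
    set w1 := w.under (𝓞 M1) with hw1
    set w0 := w1.under (𝓞 M0) with hw0
    have hw0' : algebraMap (𝓞 K) (𝓞 M0) (2 * π * (π * 2 ^ k - 1)) ∉ w0.asIdeal := by
      intro h
      apply hwp
      rw [← hcomp]
      exact h
    obtain ⟨hg1, hg2⟩ := hgood w0 hw0'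
    have hci : ∀ i, algebraMap (𝓞 K) (𝓞 M2) (cb i) ∉ w.asIdeal := by
      intro i h
      apply hwc
      rw [hc1def, map_prod]
      exact Ideal.mem_of_dvd _ (Finset.dvd_prod_of_mem
        (fun i => algebraMap (𝓞 K) (𝓞 M2) (cb i)) (Finset.mem_univ i)) h
    have hTw : ∀ i < n, fv w (T' i) = 1 ∧ fv w (T' i - 1) = 1 := by
      intro i hi
      obtain ⟨h1, h2⟩ := hg1 i hi
      constructor
      · rw [hT']
        apply one_up w
        rw [fv_eq_one_iff]
        exact one_down w (one_up w (by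
          rw [fv_eq_one_iff]
          exact (fv_eq_one_iff _ _).1 (one_up w1 h2)))
      · rw [hT1 i hi, AbsoluteValue.map_neg]
        exact one_up w (one_up w1 h1)
    have hgp : ∀ i < n, _ := fun i hi =>
      (hcb (e i) M2 w (hci (e i))).2 (X' i) (y1 i) (T' i) (hβX i hi) (hFX i hi) (hTw i hi).1
        (hTw i hi).2
    refine ⟨hgp, ?_⟩
    refine tower_unr K M1 M2 w ?_ ?_
    · refine gens_unr n M1 M2 f2 y1 (fun i hi => ⟨hf2m i, hy1 i hi⟩) htop2 w
        fun i hi => ⟨fun j => ?_, ?_⟩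
      · rw [← Pool.Agent.H10VJ.fv_le_one_iff]
        have h1 : algebraMap M1 M2 ((f2 i).coeff j) = aeval (X' i) ((F (e i)).coeff j) := by
          simp only [f2]
          rw [coeff_map, hX', aeval_algebraMap_apply]
          rfl
        rw [h1]
        exact (hgp i hi).2.2.2.2.2 j
      · rw [← fv_eq_one_iff]
        have h1 : aeval (y1 i) (derivative (f2 i)) =
            aevalAeval (X' i) (y1 i) (derivative (F (e i))) := by
          rw [hmapF, ← derivative_map]
        rw [h1]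
        exact (hgp i hi).2.2.2.2.1
    · refine tower_unr K M0 M1 w1 ?_ hg2
      refine gens_unr n M0 M1 f1 x1 (fun i hi => ⟨hf1m i, hx1 i hi⟩) htop1 w1
        fun i hi => ⟨fun j => ?_, ?_⟩
      · apply val_under_le w
        rw [← Pool.Agent.H10VJ.fv_le_one_iff]
        obtain ⟨hib, hil⟩ := (hcb (e i) M2 w (hci (e i))).1
        have h1 : algebraMap M1 M2 (algebraMap M0 M1 ((f1 i).coeff j)) =
            (algebraMap K M2 (β (e i)).leadingCoeff)⁻¹ *
              (algebraMap K M2 ((β (e i)).coeff j) - if j = 0 then T' i else 0) := by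
          simp only [f1]
          rw [coeff_C_mul, map_mul, map_mul, map_inv₀, map_inv₀, coeff_sub, coeff_map, coeff_C,
            map_sub, map_sub]
          congr 2
          split_ifs
          · exact (hT' i).symm
          · rw [map_zero, map_zero]
        rw [h1, map_mul, map_inv₀, hil, inv_one, one_mul, sub_eq_add_neg]
        refine (fv_na w _ _).trans (max_le (hib j) ?_)
        rw [AbsoluteValue.map_neg]
        split_ifs
        · exact (hTw i hi).1.le
        · rw [map_zero]; exact zero_le_one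
      · apply one_down w
        obtain ⟨hib, hil⟩ := (hcb (e i) M2 w (hci (e i))).1
        have h1 : algebraMap M1 M2 (aeval (x1 i) (derivative (f1 i))) =
            (algebraMap K M2 (β (e i)).leadingCoeff)⁻¹ *
              aeval (X' i) (derivative (β (e i))) := by
          simp only [f1]
          rw [derivative_C_mul, derivative_sub, derivative_C, sub_zero, derivative_map, map_mul,
            map_mul, aeval_C, aeval_map_algebraMap, map_inv₀, map_inv₀, hX',
            aeval_algebraMap_apply]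
          rfl
        rw [h1, map_mul, map_inv₀, hil, (hgp i hi).2.2.2.1]
        norm_num
  -- generation
  have hgen : IntermediateField.adjoin K (Set.range (fun i : Fin n => X' i) ∪
      Set.range (fun i : Fin n => y1 i)) = ⊤ := by
    set E := IntermediateField.adjoin K (Set.range (fun i : Fin n => X' i) ∪
      Set.range (fun i : Fin n => y1 i)) with hE
    have hXE : ∀ i < n, X' i ∈ E := fun i hi =>
      IntermediateField.subset_adjoin K _ (Or.inl ⟨⟨i, hi⟩, rfl⟩)
    have hYE : ∀ i < n, y1 i ∈ E := fun i hi =>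
      IntermediateField.subset_adjoin K _ (Or.inr ⟨⟨i, hi⟩, rfl⟩)
    have h0 : ∀ z : M0, (algebraMap M1 M2).comp (algebraMap M0 M1) z ∈ E.toSubfield := by
      refine adjoin_sub (K := K) (s := {y0 0}) htop0 _ _ (fun k => ?_) ?_
      · exact E.algebraMap_mem k
      · intro z hz
        rw [Set.mem_singleton_iff.1 hz]
        have h1 : (algebraMap M1 M2).comp (algebraMap M0 M1) (y0 0) = 1 - T' 0 := by
          have := hT1 0 hn
          rw [RingHom.comp_apply]
          linear_combination this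
        rw [h1, ← hβX 0 hn]
        exact sub_mem (one_mem E) (aeval_mem E (hXE 0 hn) _)
    have h1 : ∀ z : M1, algebraMap M1 M2 z ∈ E.toSubfield := by
      refine adjoin_sub (K := M0) (s := x1 '' Set.Iio n) htop1 _ _ h0 ?_
      rintro z ⟨i, hi, rfl⟩
      rw [← hX']
      exact hXE i hi
    have h2 : ∀ z : M2, RingHom.id M2 z ∈ E.toSubfield := by
      refine adjoin_sub (K := M1) (s := y1 '' Set.Iio n) htop2 _ _ h1 ?_
      rintro z ⟨i, hi, rfl⟩
      exact hYE i hi
    rw [eq_top_iff]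
    intro z _
    exact h2 z
  -- the heights
  have hhX : ∀ i : Fin n, (k * Real.log 2 - C4) / (β i).natDegree ≤ hh (X' i) := by
    intro i
    have h1 := hCB i M2 (X' i)
    have h2 := hβX i i.2
    rw [he] at h2
    rw [h2] at h1
    have h3 : hh (T' i) = hh (t i) := by
      rw [hT', hh_ext, hh_ext]
    rw [h3] at h1
    have h4 := hht i i.2
    have h5 : CB i ≤ ∑ i, CB i :=
      Finset.single_le_sum (f := CB) (fun i _ => hCB0 i) (Finset.mem_univ i)
    rw [div_le_iff₀ (hbpos i)]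
    rw [hC4]
    linarith
  have hlog : ∀ i : Fin n, logHeight₁ (X' i) / finrank K M2 = N0 * hh (X' i) := by
    intro i
    rw [hh_mul_deg, hQM]
    field_simp
  refine ⟨M2, fM2, nM2, aK2, fun i => X' i, fun i => y1 i, T, hgen, hfin, ?_, ?_, ?_, ?_, ?_, ?_⟩
  · intro i
    have := hFX i i.2
    rwa [he] at this
  · intro h
    have h1 := hr0' M2 (fun i => X' i) h
    have h2 : (fun i : Fin n => aeval (X' i) (β i)) = fun i : Fin n =>
        (algebraMap M1 M2).comp (algebraMap M0 M1) (t i) := by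
      funext i
      have := hβX i i.2
      rw [he] at this
      rw [this, hT']
      rfl
    rw [h2] at h1
    have h3 : MvPolynomial.aeval (fun i : Fin n => (algebraMap M1 M2).comp (algebraMap M0 M1)
        (t i)) r0 = (algebraMap M1 M2).comp (algebraMap M0 M1)
        (MvPolynomial.aeval (fun i : Fin n => t i) r0) := by
      rw [MvPolynomial.aeval_def, MvPolynomial.aeval_def, MvPolynomial.hom_eval₂]
      rfl
    rw [h3] at h1
    have h4 : MvPolynomial.aeval (fun i : Fin n => t i) r0 = 0 :=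
      (map_eq_zero ((algebraMap M1 M2).comp (algebraMap M0 M1))).1 h1
    apply hnv G hG0 hGl
    rw [hGev]
    have h5 : (fun i : Fin n => 1 - y0 i) = fun i : Fin n => t i := by
      funext i
      rw [← hty i i.2]
      ring
    rw [h5]
    exact h4
  · intro i
    have h1 := hβX i i.2
    rw [he] at h1
    refine (hC i).nonzero ?_ ?_
    · rw [h1]; exact (hTne i i.2).1
    · rw [h1]; exact (hTne i i.2).2
  · intro i
    rw [hlog i]
    have h1 := hhX i
    have h2 : |B| / N0 ≤ (k * Real.log 2 - C4) / (β i).natDegree := by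
      rw [le_div_iff₀ (hbpos i)]
      refine le_trans ?_ hineq2
      rw [div_mul_eq_mul_div]
      refine div_le_div_of_nonneg_right ?_ hN0pos.le
      exact mul_le_mul_of_nonneg_left (hble i) (abs_nonneg B)
    have h3 : |B| / N0 ≤ hh (X' i) := h2.trans h1
    rw [div_le_iff₀ hN0pos] at h3
    have h4 := le_abs_self B
    linarith
  · intro w hw i
    have h1 := (hprime w hw).1 i i.2
    rw [he] at h1
    exact ⟨h1.1, h1.2.2.1⟩
  · have htotal := total_bound (K := K) T ha0 (fun w hw => (hTmem w).1 hw) (fun w hw => by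
      by_contra h
      exact (hprime w (fun h2 => h ((hTmem w).1 h2))).2 hw)
    have h2 := log_discr K M2
    have h3 : Real.log |((Algebra.norm ℚ (((((finrank K M2).factorial : ℕ) : 𝓞 K) * a : 𝓞 K) :
        K) : ℚ) : ℝ)| ≤ N0 * (C3 + k * Real.log 2) := by
      have e1 := log_norm_le (K := K) ((((((finrank K M2).factorial : ℕ) : 𝓞 K) * a : 𝓞 K)) : K)
        (by
          rw [Ne, RingOfIntegers.coe_eq_zero_iff]
          exact mul_ne_zero (by exact_mod_cast Nat.factorial_ne_zero _) ha0)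
      rw [← hN0, div_le_iff₀ hN0pos] at e1
      have e2 : ((((((finrank K M2).factorial : ℕ) : 𝓞 K) * a : 𝓞 K)) : K) =
          (((finrank K M2).factorial : ℕ) : K) *
            ((c1 : K) * (2 * (π : K) * ((π : K) * 2 ^ k - 1))) := by
        rw [ha]
        change algebraMap (𝓞 K) K _ = _
        rw [map_mul, map_mul, map_mul, map_mul, map_sub, map_mul, map_pow, map_natCast, map_ofNat,
          map_one]
      rw [e2] at e1 ⊢
      have e4 := hh_mul_le (((finrank K M2).factorial : ℕ) : K)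
        ((c1 : K) * (2 * (π : K) * ((π : K) * 2 ^ k - 1)))
      have e5 := hh_mul_le (c1 : K) (2 * (π : K) * ((π : K) * 2 ^ k - 1))
      have e6 := hh_mul_le (2 * (π : K)) ((π : K) * 2 ^ k - 1)
      have e7 := hh_sub_le ((π : K) * 2 ^ k) 1
      have e8 := hh_mul_le (π : K) (2 ^ k)
      have e9 : hh ((2 : K) ^ k) = k * Real.log 2 := by
        rw [hh_pow]
        have := hh_natCast (K := K) 2
        push_cast at this
        rw [this]
      have e10 : hh (((finrank K M2).factorial : ℕ) : K) ≤ Real.log (r.factorial : ℝ) := by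
        haveI : NeZero (finrank K M2).factorial := ⟨Nat.factorial_ne_zero _⟩
        rw [hh_natCast]
        exact Real.log_le_log (by exact_mod_cast Nat.factorial_pos _)
          (by exact_mod_cast Nat.factorial_le hfin)
      rw [hh_one] at e7
      rw [e9] at e8
      refine e1.trans ?_
      rw [mul_comm]
      refine mul_le_mul_of_nonneg_left ?_ hN0pos.le
      rw [hC3]
      linarith
    have h4 : Real.log |(discr M2 : ℝ)| / finrank K M2 - Real.log |(discr K : ℝ)| =
        Real.log ((Ideal.absNorm (differentIdeal (𝓞 K) (𝓞 M2)) : ℕ) : ℝ) / finrank K M2 := by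
      rw [h2]
      field_simp
      ring
    rw [h4, ← add_div]
    have h5 : Real.log ((Ideal.absNorm (differentIdeal (𝓞 K) (𝓞 M2)) : ℕ) : ℝ) +
        ∑ w ∈ T, ell w ≤ finrank K M2 * (N0 * (C3 + k * Real.log 2)) :=
      htotal.trans (mul_le_mul_of_nonneg_left h3 hdpos.le)
    have h6 : (∑ w ∈ T, ell w + Real.log ((Ideal.absNorm (differentIdeal (𝓞 K) (𝓞 M2)) : ℕ) :
        ℝ)) / finrank K M2 ≤ N0 * (C3 + k * Real.log 2) := by
      rw [div_le_iff₀ hdpos]
      linarith
    have h7 : N0 * ((k * Real.log 2 - C4) * σ) ≤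
        ∑ i : Fin n, c i * (logHeight₁ (X' i) / finrank K M2) := by
      rw [hσ, Finset.mul_sum, Finset.mul_sum]
      refine Finset.sum_le_sum fun i _ => ?_
      rw [hlog i]
      have e1 := mul_le_mul_of_nonneg_left (hhX i) (mul_nonneg (hc i) hN0pos.le)
      calc N0 * ((k * Real.log 2 - C4) * (c i / (β i).natDegree)) =
          c i * N0 * ((k * Real.log 2 - C4) / (β i).natDegree) := by ring
        _ ≤ _ := by linarith
    have h8 : N0 * ((k * Real.log 2 - C4) * σ) = N0 * (k * Real.log 2) * (σ - 1) +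
        N0 * (k * Real.log 2) - N0 * C4 * σ := by ring
    have h9 : N0 * (C3 + k * Real.log 2) = N0 * C3 + N0 * (k * Real.log 2) := by ring
    linarith

end Pool.Agent.H10PC
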