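import Mathlib

set_option autoImplicit false

/-!
Belyi's theorem for polynomials.
-/

namespace Pool.Agent.H10PC

open Polynomial Module

section one
variable {Ω : Type} [Field Ω] [Algebra ℚ Ω]

/-- the values of `g` at the roots of `p` are the roots of a polynomial of the degree of `p` -/
lemma exists_values (g p : ℚ[X]) (hp : p ≠ 0) : ∃ h : ℚ[X], h ≠ 0 ∧ h.natDegree ≤ p.natDegree ∧
    ∀ c : Ω, aeval c p = 0 → aeval (aeval c g) h = 0 := by
  let A := AdjoinRoot p
  let pb := AdjoinRoot.powerBasis hp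
  have hfin : Module.Finite ℚ A := pb.finite
  have hfr : finrank ℚ A = p.natDegree := by
    rw [pb.finrank, AdjoinRoot.powerBasis_dim]
  let x : A := AdjoinRoot.mk p g
  let h := (Algebra.lmul ℚ A x).charpoly
  have h1 : aeval x h = 0 := by
    have h2 : aeval (Algebra.lmul ℚ A x) h = 0 := LinearMap.aeval_self_charpoly _
    rw [aeval_algHom_apply] at h2
    have h3 := congrArg (fun φ : A →ₗ[ℚ] A => φ 1) h2
    simpa using h3
  refine ⟨h, (LinearMap.charpoly_monic _).ne_zero, ?_, fun c hc => ?_⟩
  · rw [← hfr]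
    exact (LinearMap.charpoly_natDegree _).le
  · let φ : A →ₐ[ℚ] Ω := AdjoinRoot.liftAlgHom p (Algebra.ofId ℚ Ω) c (by
      simpa [aeval_def] using hc)
    have h2 : φ x = aeval c g := by
      simp only [x, φ]
      rw [AdjoinRoot.liftAlgHom_mk]
      rfl
    rw [← h2, aeval_algHom_apply, h1, map_zero]

/-- the first step -/
theorem to_rat (n : ℕ) : ∀ (S : Set Ω) (g : ℚ[X]), g ≠ 0 → g.natDegree ≤ n →
    (∀ s ∈ S, (∃ q : ℚ, algebraMap ℚ Ω q = s) ∨ aeval s g = 0) →
    ∃ f : ℚ[X], 0 < f.natDegree ∧ (∀ s ∈ S, ∃ q : ℚ, algebraMap ℚ Ω q = aeval s f) ∧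
      ∀ c : Ω, aeval c (derivative f) = 0 → ∃ q : ℚ, algebraMap ℚ Ω q = aeval c f := by
  induction n with
  | zero =>
    intro S g hg hdeg hS
    refine ⟨X, by simp, fun s hs => ?_, fun c hc => ?_⟩
    · rw [aeval_X]
      rcases hS s hs with h | h
      · exact h
      · exfalso
        have h1 : g = C (g.coeff 0) := eq_C_of_natDegree_le_zero hdeg
        rw [h1, aeval_C] at h
        apply hg
        rw [h1]
        rw [(FaithfulSMul.algebraMap_eq_zero_iff ℚ Ω).1 h, C_0]
    · simp at hc
  | succ n ih =>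
    intro S g hg hdeg hS
    rcases Nat.lt_or_ge g.natDegree (n + 1) with h1 | h1
    · exact ih S g hg (by omega) hS
    have hd : g.natDegree = n + 1 := le_antisymm hdeg h1
    have hd' : (derivative g).natDegree = n := by
      have := natDegree_derivative g
      omega
    have hg' : derivative g ≠ 0 := by
      intro h
      have := derivative_eq_zero.1 h
      omega
    obtain ⟨h, hh0, hhd, hh⟩ := exists_values (Ω := Ω) g (derivative g) hg'
    obtain ⟨f, hf, hfS, hfc⟩ := ih ((fun s => aeval s g) '' S ∪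
      (fun s => aeval s g) '' {c | aeval c (derivative g) = 0}) h hh0 (by omega) (by
        rintro _ (⟨s, hs, rfl⟩ | ⟨c, hc, rfl⟩)
        · left
          rcases hS s hs with ⟨q, rfl⟩ | h2
          · exact ⟨g.eval q, by simp only [aeval_algebraMap_apply]; simp⟩
          · exact ⟨0, by simp only [h2, map_zero]⟩
        · right
          exact hh c hc)
    have hcomp : ∀ c : Ω, aeval c (f.comp g) = aeval (aeval c g) f := fun c => by
      rw [aeval_comp]
    refine ⟨f.comp g, ?_, fun s hs => ?_, fun c hc => ?_⟩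
    · rw [natDegree_comp]
      exact Nat.mul_pos hf (by omega)
    · rw [hcomp]
      exact hfS _ (Or.inl ⟨s, hs, rfl⟩)
    · rw [derivative_comp, map_mul, mul_eq_zero] at hc
      rw [hcomp]
      rcases hc with h2 | h2
      · exact hfS _ (Or.inr ⟨c, h2, rfl⟩)
      · rw [aeval_comp] at h2
        exact hfc _ h2

/-- Belyi's polynomial -/
lemma belyi_pol {ρ : ℚ} (h0 : 0 < ρ) (h1 : ρ < 1) : ∃ B : ℚ[X], 0 < B.natDegree ∧
    B.eval 0 = 0 ∧ B.eval 1 = 0 ∧ B.eval ρ = 1 ∧
    ∀ c : Ω, aeval c (derivative B) = 0 → aeval c B = 0 ∨ aeval c B = 1 := by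
  have hden : (0 : ℚ) < ρ.den := by exact_mod_cast ρ.den_pos
  have hnum : 0 < ρ.num := Rat.num_pos.2 h0
  have hlt : ρ.num < ρ.den := Rat.num_lt_denom_iff.2 h1
  obtain ⟨a, ha⟩ : ∃ a : ℕ, (a : ℤ) + 1 = ρ.num := ⟨(ρ.num - 1).toNat, by omega⟩
  obtain ⟨b, hb⟩ : ∃ b : ℕ, (b : ℤ) + 1 = ρ.den - ρ.num :=
    ⟨(ρ.den - ρ.num - 1).toNat, by omega⟩
  have hρ : ((a + 1) + (b + 1)) * ρ = a + 1 := by
    have e1 : ((a : ℚ) + 1) = ρ.num := by exact_mod_cast congrArg (fun z : ℤ => (z : ℚ)) ha
    have e2 : ((b : ℚ) + 1) = ρ.den - ρ.num := by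
      exact_mod_cast congrArg (fun z : ℤ => (z : ℚ)) hb
    rw [e1, e2]
    have e3 : ρ * ρ.den = ρ.num := Rat.mul_den_eq_num ρ
    linarith
  set κ : ℚ := (ρ ^ (a + 1) * (1 - ρ) ^ (b + 1))⁻¹ with hκ
  have hne : ρ ^ (a + 1) * (1 - ρ) ^ (b + 1) ≠ 0 :=
    mul_ne_zero (pow_ne_zero _ h0.ne') (pow_ne_zero _ (by linarith))
  have hκ0 : κ ≠ 0 := inv_ne_zero hne
  set B : ℚ[X] := C κ * X ^ (a + 1) * (1 - X) ^ (b + 1) with hB
  have hev : ∀ c : Ω, aeval c B = algebraMap ℚ Ω κ * c ^ (a + 1) * (1 - c) ^ (b + 1) := by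
    intro c
    simp [hB]
  refine ⟨B, ?_, by simp [hB], by simp [hB], ?_, fun c hc => ?_⟩
  · have h2 : (1 - X : ℚ[X]).natDegree = 1 := by
      rw [← natDegree_neg, neg_sub]
      exact natDegree_X_sub_C 1
    have h3 : (1 - X : ℚ[X]) ≠ 0 := fun h => by
      rw [h] at h2; simp at h2
    rw [hB, natDegree_mul (mul_ne_zero (C_ne_zero.2 hκ0) (pow_ne_zero _ X_ne_zero))
      (pow_ne_zero _ h3), natDegree_C_mul hκ0, natDegree_X_pow]
    omega
  · simp only [hB, eval_mul, eval_C, eval_pow, eval_X, eval_sub, eval_one]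
    rw [mul_assoc, hκ, inv_mul_cancel₀ hne]
  · have hder : derivative B = C κ * X ^ a * (1 - X) ^ b *
        (C ((a : ℚ) + 1) - C (((a + 1) + (b + 1) : ℚ)) * X) := by
      rw [hB]
      simp only [derivative_mul, derivative_C, derivative_pow, derivative_sub,
        derivative_one, derivative_X, zero_mul, zero_add, Nat.add_sub_cancel, C_add, map_natCast,
        C_1, Nat.cast_add, Nat.cast_one]
      ring
    rw [hder, map_mul, map_mul, map_mul, map_pow, map_pow, map_sub, map_sub, map_mul, aeval_C,
      aeval_C, aeval_C, map_one, aeval_X] at hc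
    rw [hev]
    have hκΩ : algebraMap ℚ Ω κ ≠ 0 := by rwa [Ne, FaithfulSMul.algebraMap_eq_zero_iff]
    rcases mul_eq_zero.1 hc with h2 | h2
    · left
      rcases mul_eq_zero.1 h2 with h3 | h3
      · rcases mul_eq_zero.1 h3 with h4 | h4
        · exact absurd h4 hκΩ
        · rw [eq_zero_of_pow_eq_zero h4]
          simp
      · rw [eq_zero_of_pow_eq_zero h3]
        simp
    · right
      have h3 : c = algebraMap ℚ Ω ρ := by
        have h4 : algebraMap ℚ Ω ((a + 1) + (b + 1)) * c =
            algebraMap ℚ Ω ((a + 1) + (b + 1)) * algebraMap ℚ Ω ρ := by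
          rw [← map_mul, hρ]
          exact (sub_eq_zero.1 h2).symm
        have h5 : algebraMap ℚ Ω ((a + 1) + (b + 1)) ≠ 0 := by
          rw [Ne, FaithfulSMul.algebraMap_eq_zero_iff]
          positivity
        exact mul_left_cancel₀ h5 h4
      rw [h3, ← map_one (algebraMap ℚ Ω), ← map_sub, ← map_pow, ← map_pow, ← map_mul, ← map_mul,
        mul_assoc, hκ, inv_mul_cancel₀ hne]

/-- the second step -/
theorem to_two (n : ℕ) : ∀ S : Finset ℚ, S.card ≤ n → ∃ f : ℚ[X], 0 < f.natDegree ∧
    (∀ s ∈ S, f.eval s = 0 ∨ f.eval s = 1) ∧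
    ∀ c : Ω, aeval c (derivative f) = 0 → aeval c f = 0 ∨ aeval c f = 1 := by
  classical
  induction n with
  | zero =>
    intro S hS
    refine ⟨X, by simp, fun s hs => ?_, fun c hc => ?_⟩
    · rw [Finset.card_eq_zero.1 (Nat.le_zero.1 hS)] at hs
      simp at hs
    · simp at hc
  | succ n ih =>
    intro S hS
    by_cases hcard : S.card ≤ 2
    · obtain ⟨p, q, hpq, hSpq⟩ : ∃ p q : ℚ, p ≠ q ∧ S ⊆ {p, q} := by
        rcases Nat.lt_or_ge S.card 1 with h | h
        · refine ⟨0, 1, by norm_num, ?_⟩
          have h0 : S.card = 0 := by omega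
          rw [Finset.card_eq_zero.1 h0]
          simp
        rcases Nat.lt_or_ge S.card 2 with h2 | h2
        · obtain ⟨p, hp⟩ := Finset.card_eq_one.1 (by omega : S.card = 1)
          refine ⟨p, p + 1, by simp, ?_⟩
          rw [hp]
          simp
        · obtain ⟨p, q, hpq, h3⟩ := Finset.card_eq_two.1 (by omega : S.card = 2)
          exact ⟨p, q, hpq, h3.le⟩
      have hne : (q - p)⁻¹ ≠ 0 := inv_ne_zero (sub_ne_zero.2 hpq.symm)
      refine ⟨C (q - p)⁻¹ * (X - C p), ?_, fun s hs => ?_, fun c hc => ?_⟩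
      · rw [natDegree_C_mul hne, natDegree_X_sub_C]
        exact one_pos
      · simp only [eval_mul, eval_C, eval_sub, eval_X]
        have := hSpq hs
        rw [Finset.mem_insert, Finset.mem_singleton] at this
        rcases this with rfl | rfl
        · left; ring
        · right; exact inv_mul_cancel₀ (sub_ne_zero.2 hpq.symm)
      · exfalso
        rw [derivative_C_mul, derivative_X_sub_C, mul_one, aeval_C,
          FaithfulSMul.algebraMap_eq_zero_iff] at hc
        exact hne hc
    · push Not at hcard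
      -- three different elements in increasing order
      have hne : S.Nonempty := Finset.card_pos.1 (by omega)
      set p := S.min' hne with hp
      set r := S.max' hne with hr
      have hpS : p ∈ S := S.min'_mem hne
      have hrS : r ∈ S := S.max'_mem hne
      obtain ⟨q, hqS, hqp, hqr⟩ : ∃ q ∈ S, q ≠ p ∧ q ≠ r := by
        by_contra! hcon
        have : S ⊆ {p, r} := by
          intro q hq
          rw [Finset.mem_insert, Finset.mem_singleton]
          by_cases h : q = p
          · exact Or.inl h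
          · exact Or.inr (hcon q hq h)
        have h3 := (Finset.card_le_card this).trans (Finset.card_le_two)
        omega
      have hpq : p < q := lt_of_le_of_ne (S.min'_le q hqS) (Ne.symm hqp)
      have hqr' : q < r := lt_of_le_of_ne (S.le_max' q hqS) hqr
      have hrp : 0 < r - p := by linarith
      obtain ⟨B, hB0, hB1, hB2, hB3, hB4⟩ := belyi_pol (Ω := Ω) (ρ := (q - p) / (r - p))
        (div_pos (by linarith) hrp) ((div_lt_one hrp).2 (by linarith))
      set L : ℚ[X] := C (r - p)⁻¹ * (X - C p) with hL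
      have hLd : L.natDegree = 1 := by
        rw [hL, natDegree_C_mul (inv_ne_zero hrp.ne'), natDegree_X_sub_C]
      have hLe : ∀ s : ℚ, L.eval s = (s - p) / (r - p) := by
        intro s
        simp only [hL, eval_mul, eval_C, eval_sub, eval_X]
        rw [div_eq_inv_mul]
      set T : ℚ[X] := B.comp L with hT
      have hTp : T.eval p = 0 := by
        rw [hT, eval_comp, hLe, sub_self, zero_div, hB1]
      have hTr : T.eval r = 0 := by
        rw [hT, eval_comp, hLe, div_self hrp.ne', hB2]
      have hTq : T.eval q = 1 := by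
        rw [hT, eval_comp, hLe, hB3]
      have hcardlt : (S.image fun s => T.eval s).card ≤ n := by
        have h1 : (S.image fun s => T.eval s).card < S.card := by
          refine lt_of_le_of_ne Finset.card_image_le ?_
          intro h
          have h2 := Finset.card_image_iff.1 h
          have := h2 hpS hrS (by simp only [hTp, hTr])
          linarith
        omega
      obtain ⟨f, hf, hfS, hfc⟩ := ih _ hcardlt
      have hf0 : f.eval 0 = 0 ∨ f.eval 0 = 1 := hfS 0 (Finset.mem_image.2 ⟨p, hpS, hTp⟩)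
      have hf1 : f.eval 1 = 0 ∨ f.eval 1 = 1 := hfS 1 (Finset.mem_image.2 ⟨q, hqS, hTq⟩)
      refine ⟨f.comp T, ?_, fun s hs => ?_, fun c hc => ?_⟩
      · rw [natDegree_comp, hT, natDegree_comp, hLd, mul_one]
        exact Nat.mul_pos hf hB0
      · rw [eval_comp]
        exact hfS _ (Finset.mem_image_of_mem _ hs)
      · rw [derivative_comp, map_mul, mul_eq_zero, aeval_comp] at hc
        rw [aeval_comp]
        rcases hc with h2 | h2
        · have h3 : aeval c T = 0 ∨ aeval c T = 1 := by
            rw [hT, aeval_comp]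
            apply hB4
            rw [hT, derivative_comp, map_mul, mul_eq_zero, aeval_comp] at h2
            rcases h2 with h4 | h4
            · exfalso
              rw [hL, derivative_C_mul, derivative_X_sub_C, mul_one, aeval_C,
                FaithfulSMul.algebraMap_eq_zero_iff] at h4
              exact (inv_ne_zero hrp.ne') h4
            · exact h4
          have key : ∀ s : ℚ, (f.eval s = 0 ∨ f.eval s = 1) →
              (aeval (algebraMap ℚ Ω s) f = 0 ∨ aeval (algebraMap ℚ Ω s) f = 1) := by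
            intro s hs
            rw [aeval_algebraMap_apply, coe_aeval_eq_eval]
            rcases hs with h | h
            · left; rw [h, map_zero]
            · right; rw [h, map_one]
          rcases h3 with h3 | h3
          · rw [h3, ← map_zero (algebraMap ℚ Ω)]
            simpa using key 0 hf0
          · rw [h3, ← map_one (algebraMap ℚ Ω)]
            simpa using key 1 hf1
        · exact hfc _ h2

end one

/-- divisibility and roots -/
lemma dvd_pow_of_roots {K : Type} [Field K] {P Q : K[X]} (hP : P ≠ 0)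
    (h : ∀ c : AlgebraicClosure K, aeval c P = 0 → aeval c Q = 0) : ∃ N : ℕ, P ∣ Q ^ N := by
  induction P using UniqueFactorizationMonoid.induction_on_prime with
  | h₁ => exact absurd rfl hP
  | h₂ P hu => exact ⟨0, hu.dvd⟩
  | h₃ P p hP0 hp ih =>
    obtain ⟨N, hN⟩ := ih hP0 fun c hc => h c (by rw [map_mul, hc, mul_zero])
    have hdvd : p ∣ Q := by
      by_contra hcon
      have hcop : IsCoprime p Q := (hp.irreducible.coprime_iff_not_dvd).2 hcon
      have hdeg : p.degree ≠ 0 := by
        intro hd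
        exact hp.not_isUnit (isUnit_iff_degree_eq_zero.2 hd)
      obtain ⟨c, hc⟩ := IsAlgClosed.exists_aeval_eq_zero (AlgebraicClosure K) p hdeg
      obtain ⟨U, V, hUV⟩ := hcop
      have h1 := congrArg (aeval c) hUV
      rw [map_add, map_mul, map_mul, hc, h c (by rw [map_mul, hc, zero_mul]), map_one] at h1
      simp at h1
    refine ⟨N + 1, ?_⟩
    rw [pow_succ, mul_comm]
    exact mul_dvd_mul hN hdvd

/-- **Belyi's theorem.** For every `A ≠ 0` there is a polynomial `β` such that the roots of `A` and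
the critical points of `β` lie over `0` and `1`. -/
theorem belyi (K : Type) [Field K] [NumberField K] {A : K[X]} (hA : A ≠ 0) : ∃ (β : K[X]) (N : ℕ),
    0 < β.natDegree ∧ A * derivative β ∣ (β * (β - 1)) ^ N := by
  classical
  let Ω := AlgebraicClosure K
  have hQ : Algebra.IsAlgebraic ℚ Ω := Algebra.IsAlgebraic.trans ℚ K Ω
  have halg : ∀ s : Ω, IsIntegral ℚ s := fun s =>
    (Algebra.IsAlgebraic.isAlgebraic (R := ℚ) s).isIntegral
  set S : Finset Ω := (A.aroots Ω).toFinset with hS
  have hmemS : ∀ s : Ω, aeval s A = 0 → s ∈ S := by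
    intro s hs
    rw [hS, Multiset.mem_toFinset, mem_aroots]
    exact ⟨hA, hs⟩
  obtain ⟨f, hf, hfS, hfc⟩ := to_rat (Ω := Ω) (∏ s ∈ S, minpoly ℚ s).natDegree (S : Set Ω)
    (∏ s ∈ S, minpoly ℚ s) (Finset.prod_ne_zero_iff.2 fun s _ => minpoly.ne_zero (halg s)) le_rfl
    (fun s hs => Or.inr (by
      rw [map_prod]
      exact Finset.prod_eq_zero (Finset.mem_coe.1 hs) (minpoly.aeval ℚ s)))
  have hf' : derivative f ≠ 0 := by
    intro h
    have := derivative_eq_zero.1 h
    omega
  -- the set of the values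
  set R : Finset Ω := S ∪ ((derivative f).aroots Ω).toFinset with hR
  have hval : ∀ s ∈ R, ∃ q : ℚ, algebraMap ℚ Ω q = aeval s f := by
    intro s hs
    rcases Finset.mem_union.1 hs with h | h
    · exact hfS s (Finset.mem_coe.2 h)
    · rw [Multiset.mem_toFinset, mem_aroots] at h
      exact hfc s h.2
  choose! v hv using hval
  obtain ⟨f2, hf2, hf2S, hf2c⟩ := to_two (Ω := Ω) (R.image v).card (R.image v) le_rfl
  set β : ℚ[X] := f2.comp f with hβ
  have hkey : ∀ s : Ω, s ∈ R → aeval s β = 0 ∨ aeval s β = 1 := by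
    intro s hs
    rw [hβ, aeval_comp, ← hv s hs, aeval_algebraMap_apply, coe_aeval_eq_eval]
    rcases hf2S (v s) (Finset.mem_image_of_mem v hs) with h | h
    · left; rw [h, map_zero]
    · right; rw [h, map_one]
  have hcrit : ∀ c : Ω, aeval c (derivative β) = 0 → aeval c β = 0 ∨ aeval c β = 1 := by
    intro c hc
    rw [hβ, derivative_comp, map_mul, mul_eq_zero, aeval_comp] at hc
    rcases hc with h | h
    · apply hkey
      rw [hR, Finset.mem_union]
      refine Or.inr ?_
      rw [Multiset.mem_toFinset, mem_aroots]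
      exact ⟨hf', h⟩
    · rw [hβ, aeval_comp]
      exact hf2c _ h
  have hβd : 0 < β.natDegree := by
    rw [hβ, natDegree_comp]
    exact Nat.mul_pos hf2 hf
  have hβd' : derivative β ≠ 0 := by
    intro h
    have := derivative_eq_zero.1 h
    omega
  set β' : K[X] := β.map (algebraMap ℚ K) with hβ'
  have hmap : ∀ (P : ℚ[X]) (c : Ω), aeval c (P.map (algebraMap ℚ K)) = aeval c P := by
    intro P c
    rw [aeval_map_algebraMap]
  obtain ⟨N, hN⟩ := dvd_pow_of_roots (K := K) (P := A * derivative β') (Q := β' * (β' - 1)) (by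
    refine mul_ne_zero hA ?_
    rw [hβ', derivative_map]
    exact (Polynomial.map_ne_zero_iff (algebraMap ℚ K).injective).2 hβd') (by
    intro c hc
    rw [map_mul, mul_eq_zero] at hc
    have h1 : aeval c β = 0 ∨ aeval c β = 1 := by
      rcases hc with h | h
      · exact hkey c (Finset.mem_union_left _ (hmemS c h))
      · rw [hβ', derivative_map, hmap] at h
        exact hcrit c h
    rw [map_mul, map_sub, map_one, hβ', hmap]
    rcases h1 with h | h
    · rw [h, zero_mul]
    · rw [h, sub_self, mul_zero])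
  refine ⟨β', N, ?_, hN⟩
  rw [hβ', natDegree_map]
  exact hβd

end Pool.Agent.H10PC
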