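import Mathlib
import Pool.Agent.H10PC.Belyi
import Pool.Agent.H10PC.Asm

set_option autoImplicit false

/-!
The existence of the polynomials `β`.
-/

namespace Pool.Agent.H10PC

open Polynomial

/-- the elimination of `Y` -/
lemma sep_bezout {K : Type} [Field K] {F : K[X][X]}
    (hF : (F.map (algebraMap K[X] (RatFunc K))).Separable) :
    ∃ a : K[X], a ≠ 0 ∧ C a ∈ Ideal.span {F, derivative F} := by
  classical
  obtain ⟨u, v, huv⟩ := hF
  obtain ⟨b1, hb1, h1⟩ := IsLocalization.integerNormalization_spec (nonZeroDivisors K[X]) u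
  obtain ⟨b2, hb2, h2⟩ := IsLocalization.integerNormalization_spec (nonZeroDivisors K[X]) v
  set u' := IsLocalization.integerNormalization (nonZeroDivisors K[X]) u
  set v' := IsLocalization.integerNormalization (nonZeroDivisors K[X]) v
  refine ⟨b1 * b2, mul_ne_zero (nonZeroDivisors.ne_zero hb1) (nonZeroDivisors.ne_zero hb2), ?_⟩
  rw [Ideal.mem_span_pair]
  refine ⟨C b2 * u', C b1 * v', ?_⟩
  have hinj : Function.Injective (algebraMap K[X] (RatFunc K)) :=
    IsFractionRing.injective K[X] (RatFunc K)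
  apply map_injective _ hinj
  have e1 : u'.map (algebraMap K[X] (RatFunc K)) =
      C (algebraMap K[X] (RatFunc K) b1) * u := by
    rw [h1, Algebra.smul_def]
    rfl
  have e2 : v'.map (algebraMap K[X] (RatFunc K)) =
      C (algebraMap K[X] (RatFunc K) b2) * v := by
    rw [h2, Algebra.smul_def]
    rfl
  simp only [Polynomial.map_add, Polynomial.map_mul, map_C, e1, e2, ← derivative_map]
  rw [map_mul, map_mul]
  linear_combination (C (algebraMap K[X] (RatFunc K) b1) * C (algebraMap K[X] (RatFunc K) b2)) * huv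

/-- Belyi's theorem for a curve -/
theorem exists_ctrl (K : Type) [Field K] [NumberField K] {F : K[X][X]} {R : K[X]}
    (hF : (F.map (algebraMap K[X] (RatFunc K))).Separable) (hR : R ≠ 0) :
    ∃ β : K[X], Ctrl β R F := by
  obtain ⟨a, ha, haF⟩ := sep_bezout hF
  obtain ⟨β, N, hβ, hdvd⟩ := belyi K (mul_ne_zero hR ha)
  refine ⟨β, hβ, N, ?_, ?_⟩
  · refine dvd_trans ?_ hdvd
    exact mul_dvd_mul (dvd_mul_right R a) dvd_rfl
  · obtain ⟨q, hq⟩ : a ∣ (β * (β - 1)) ^ N :=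
      (dvd_trans (dvd_mul_left a R) (dvd_mul_right _ _)).trans hdvd
    rw [hq, C_mul]
    exact Ideal.mul_mem_right _ _ haF

/-- Fermat curves -/
theorem fermat_ctrl (K : Type) [Field K] [CharZero K] {m : ℕ} (hm : 1 ≤ m) :
    Ctrl (X ^ m : K[X]) (X ^ (m + 1) - X) (X ^ m + C (X ^ m - 1)) := by
  have hmK : (m : K) ≠ 0 := by
    have : m ≠ 0 := by omega
    exact_mod_cast this
  obtain ⟨k, rfl⟩ : ∃ k, m = k + 1 := ⟨m - 1, by omega⟩
  refine ⟨by rw [natDegree_X_pow]; omega, 1, ?_, ?_⟩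
  · refine ⟨C (((k + 1 : ℕ) : K)⁻¹), ?_⟩
    rw [derivative_X_pow, Nat.add_sub_cancel]
    have h1 : (C ((k + 1 : ℕ) : K)) * C (((k + 1 : ℕ) : K)⁻¹) = 1 := by
      rw [← C_mul, mul_inv_cancel₀ hmK, C_1]
    linear_combination (-(X ^ (k + 1) * (X ^ (k + 1) - 1))) * h1
  · rw [pow_one, Ideal.mem_span_pair]
    refine ⟨C (X ^ (k + 1)), -(C (X ^ (k + 1)) * C (C (((k + 1 : ℕ) : K)⁻¹)) * X), ?_⟩
    rw [derivative_add, derivative_C, add_zero, derivative_X_pow, Nat.add_sub_cancel]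
    have h1 : (((k + 1 : ℕ) : K[X][X])) * C (C (((k + 1 : ℕ) : K)⁻¹)) = 1 := by
      rw [← C_eq_natCast, ← C_eq_natCast, ← C_mul, ← C_mul, mul_inv_cancel₀ hmK, C_1, C_1]
    have h2 : (C ((k + 1 : ℕ) : K[X]) : K[X][X]) = ((k + 1 : ℕ) : K[X][X]) := C_eq_natCast _
    rw [h2, C_mul]
    linear_combination (-(C (X ^ (k + 1)) * X ^ (k + 1))) * h1

end Pool.Agent.H10PC
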